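import Pool.Agent.helper42.NS.Spec2

set_option autoImplicit false

/-!
# Row nos2:ASG
-/

namespace Pool.Agent.helper42.NS

theorem ASG_exp (a x : ℕ) (ha : 40 ≤ a) (hx : x = 2 ^ (10 * a - 2)) :
    2 ^ 42 + 40 * a + 4 ≤ x := by
  have h1 : a + 1 ≤ 2 ^ a := Nat.lt_two_pow_self
  have h2 : (2 : ℕ) ^ 50 ≤ 2 ^ (9 * a - 2) := Nat.pow_le_pow_right (by norm_num) (by omega)
  have h3 : x = 2 ^ a * 2 ^ (9 * a - 2) := by
    rw [hx, ← pow_add]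
    congr 1
    omega
  have h4 : (a + 1) * 2 ^ 50 ≤ x := by
    rw [h3]
    exact Nat.mul_le_mul h1 h2
  have h5 : 2 ^ 42 + 40 * a + 4 ≤ (a + 1) * 2 ^ 50 := by
    norm_num
    omega
  exact h5.trans h4

theorem ASG_nat (σ a n : ℕ) (ha : 40 ≤ a) (hn : n ≤ 2 ^ 25 * 2 ^ (10 * a))
    (h : 2 ^ ((2 ^ (10 * a)).choose 2) ≤
      4 * σ * 2 ^ (n * 177 ^ 2) * (2 ^ (10 * a)).factorial) :
    2 ^ (4 * (2 ^ (10 * a - 2)) ^ 2) ≤ σ := by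
  obtain ⟨x, hx⟩ : ∃ x : ℕ, x = 2 ^ (10 * a - 2) := ⟨_, rfl⟩
  have hm : 2 ^ (10 * a) = 4 * x := by
    rw [hx]
    have h1 : (4 : ℕ) = 2 ^ 2 := by norm_num
    rw [h1, ← pow_add]
    congr 1
    omega
  have hxb := ASG_exp a x ha hx
  have hchoose : (2 ^ (10 * a)).choose 2 + 2 * x = 8 * x ^ 2 := by
    rw [Nat.choose_two_right, hm]
    have h2 : 4 * x * (4 * x - 1) / 2 = 2 * x * (4 * x - 1) := by
      have h3 : 4 * x * (4 * x - 1) = 2 * (2 * x * (4 * x - 1)) := by ring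
      rw [h3, Nat.mul_div_cancel_left _ (by norm_num)]
    rw [h2]
    have h4 : 1 ≤ 4 * x := by omega
    zify [h4]
    ring
  have hfact : (2 ^ (10 * a)).factorial ≤ 2 ^ (10 * a * (4 * x)) := by
    have h0 : (2 ^ (10 * a)) ^ (2 ^ (10 * a)) = 2 ^ (10 * a * (4 * x)) := by
      rw [← pow_mul, hm]
    rw [← h0]
    exact Nat.factorial_le_pow _
  rw [← hx]
  by_contra hcon
  push Not at hcon
  have h5 : 4 * σ * 2 ^ (n * 177 ^ 2) * (2 ^ (10 * a)).factorial <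
      2 ^ (2 + 4 * x ^ 2 + n * 177 ^ 2 + 10 * a * (4 * x)) := by
    have h6 : 2 ^ (2 + 4 * x ^ 2 + n * 177 ^ 2 + 10 * a * (4 * x)) =
        4 * 2 ^ (4 * x ^ 2) * 2 ^ (n * 177 ^ 2) * 2 ^ (10 * a * (4 * x)) := by
      rw [pow_add, pow_add, pow_add]
      norm_num
    rw [h6]
    have h7 : 4 * σ * 2 ^ (n * 177 ^ 2) < 4 * 2 ^ (4 * x ^ 2) * 2 ^ (n * 177 ^ 2) := by
      apply Nat.mul_lt_mul_of_pos_right _ (by positivity)
      omega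
    calc 4 * σ * 2 ^ (n * 177 ^ 2) * (2 ^ (10 * a)).factorial
        ≤ 4 * σ * 2 ^ (n * 177 ^ 2) * 2 ^ (10 * a * (4 * x)) := Nat.mul_le_mul_left _ hfact
      _ < 4 * 2 ^ (4 * x ^ 2) * 2 ^ (n * 177 ^ 2) * 2 ^ (10 * a * (4 * x)) :=
          Nat.mul_lt_mul_of_pos_right h7 (by positivity)
  have h8 : (2 ^ (10 * a)).choose 2 < 2 + 4 * x ^ 2 + n * 177 ^ 2 + 10 * a * (4 * x) :=
    (Nat.pow_lt_pow_iff_right (by norm_num)).1 (h.trans_lt h5)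
  have h9 : n * 177 ^ 2 ≤ 2 ^ 42 * x := by
    rw [hm] at hn
    calc n * 177 ^ 2 ≤ (2 ^ 25 * (4 * x)) * 177 ^ 2 := Nat.mul_le_mul_right _ hn
      _ = (2 ^ 25 * 4 * 177 ^ 2) * x := by ring
      _ ≤ 2 ^ 42 * x := Nat.mul_le_mul_right _ (by norm_num)
  have h10 : (2 ^ 42 + 40 * a + 4) * x ≤ x * x := Nat.mul_le_mul_right _ hxb
  have h11 : x * x = x ^ 2 := (sq x).symm
  have h12 : (2 ^ 42 + 40 * a + 4) * x = 2 ^ 42 * x + 10 * a * (4 * x) + 4 * x := by ring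
  have h13 : 1 ≤ x := by omega
  have h14 : 0 < x ^ 2 := by positivity
  omega

theorem ASG_choice (n : ℕ) : ∀ Q : ℕ, 1024 ^ 40 ≤ Q → 177 ^ 2 * (Q + 3) ≤ n →
    ∃ a : ℕ, 40 ≤ a ∧ 177 ^ 2 * (2 ^ (10 * a) + 2) ≤ n ∧ n ≤ 2 ^ 25 * 2 ^ (10 * a) := by
  intro Q hQ hn
  obtain ⟨x, hx⟩ : ∃ x : ℕ, x = n / 177 ^ 2 - 2 := ⟨_, rfl⟩
  have hq : Q + 3 ≤ n / 177 ^ 2 := by
    rw [Nat.le_div_iff_mul_le (by norm_num)]
    rw [mul_comm]
    exact hn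
  have hx1 : Q ≤ x := by omega
  have hQx : 1024 ^ 40 ≤ x := hQ.trans hx1
  have hx0 : x ≠ 0 := by
    intro h0
    rw [h0] at hQx
    have : 0 < 1024 ^ 40 := by positivity
    exact absurd hQx (not_le.2 this)
  clear hQ
  have h1 : 1024 ^ (Nat.log 1024 x) ≤ x := Nat.pow_log_le_self 1024 hx0
  have h2 : x < 1024 ^ (Nat.log 1024 x + 1) := Nat.lt_pow_succ_log_self (by norm_num) x
  have ha40 : 40 ≤ Nat.log 1024 x := Nat.le_log_of_pow_le (by norm_num) hQx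
  clear hQx
  obtain ⟨a, ha⟩ : ∃ a : ℕ, a = Nat.log 1024 x := ⟨_, rfl⟩
  rw [← ha] at h1 h2 ha40
  have hpow : ∀ k : ℕ, 1024 ^ k = 2 ^ (10 * k) := by
    intro k
    rw [pow_mul]
    norm_num
  refine ⟨a, ha40, ?_, ?_⟩
  · have h4 : 2 ^ (10 * a) + 2 ≤ n / 177 ^ 2 := by
      rw [← hpow]
      omega
    rw [Nat.le_div_iff_mul_le (by norm_num)] at h4
    rw [mul_comm]
    exact h4
  · have h5 : n / 177 ^ 2 < 1024 ^ (a + 1) + 2 := by omega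
    have h6 : n < 177 ^ 2 * (1024 ^ (a + 1) + 2) := by
      rw [Nat.div_lt_iff_lt_mul (by norm_num)] at h5
      rw [mul_comm]
      exact h5
    have h7 : 1024 ≤ 1024 ^ a := by
      calc 1024 = 1024 ^ 1 := by norm_num
        _ ≤ 1024 ^ a := Nat.pow_le_pow_right (by norm_num) (by omega)
    obtain ⟨m, hm⟩ : ∃ m : ℕ, m = 1024 ^ a := ⟨_, rfl⟩
    have h8 : 1024 ^ (a + 1) = m * 1024 := by rw [hm]; exact pow_succ 1024 a
    rw [h8] at h6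
    rw [← hpow]
    rw [← hm] at h7 ⊢
    clear hpow h1 h2 h5 hq hx hx1 hx0 ha h8 hm
    norm_num at h6 ⊢
    omega

/-- ASG. -/
theorem ASG : ASG_stmt := by
  intro σ h
  refine ⟨1 / 2 ^ 52, by positivity, 177 ^ 2 * (1024 ^ 40 + 3), ?_⟩
  intro n hn
  obtain ⟨a, ha40, hle, hupp⟩ := ASG_choice n (1024 ^ 40) le_rfl hn
  clear hn
  have hmain := ASG_nat (σ n) a n ha40 hupp (h a n ha40 hle)
  have hreal : (2 : ℝ) ^ ((4 * (2 ^ (10 * a - 2)) ^ 2 : ℕ) : ℝ) ≤ (σ n : ℝ) := by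
    rw [Real.rpow_natCast]
    exact_mod_cast hmain
  refine le_trans ?_ hreal
  apply Real.rpow_le_rpow_of_exponent_le (by norm_num)
  have hnR : (n : ℝ) ≤ 2 ^ 25 * 2 ^ (10 * a) := by exact_mod_cast hupp
  have hmx : (2 : ℝ) ^ (10 * a) = 4 * 2 ^ (10 * a - 2) := by
    have h9 : (4 : ℝ) = 2 ^ 2 := by norm_num
    rw [h9, ← pow_add]
    congr 1
    omega
  rw [hmx] at hnR
  push_cast
  have h10 : (0 : ℝ) ≤ n := Nat.cast_nonneg n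
  have h11 : (n : ℝ) ^ 2 ≤ (2 ^ 25 * (4 * 2 ^ (10 * a - 2))) ^ 2 := pow_le_pow_left₀ h10 hnR 2
  calc 1 / 2 ^ 52 * (n : ℝ) ^ 2 ≤ 1 / 2 ^ 52 * (2 ^ 25 * (4 * 2 ^ (10 * a - 2))) ^ 2 :=
        mul_le_mul_of_nonneg_left h11 (by positivity)
    _ = 4 * (2 ^ (10 * a - 2)) ^ 2 := by ring

end Pool.Agent.helper42.NS
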