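import Mathlib

/-!
# The number of different spectra of graphs on n vertices: definitions
-/

namespace Pool.Agent.helper42.NS

open Polynomial Matrix

/-- The matrix `H` bordered by the vector `v`: the new index is `0`, the new diagonal entry
is `0`. -/
def bord {R : Type*} [Zero R] {t : ℕ} (H : Matrix (Fin t) (Fin t) R) (v : Fin t → R) :
    Matrix (Fin (t + 1)) (Fin (t + 1)) R :=
  Matrix.of (Fin.cons (Fin.cons 0 v) fun i => Fin.cons (v i) (H i))

section bord

variable {R : Type*} [Zero R] {t : ℕ} (H : Matrix (Fin t) (Fin t) R) (v : Fin t → R)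

@[simp] theorem bord_zero_zero : bord H v 0 0 = 0 := rfl

@[simp] theorem bord_zero_succ (j : Fin t) : bord H v 0 j.succ = v j := rfl

@[simp] theorem bord_succ_zero (i : Fin t) : bord H v i.succ 0 = v i := rfl

@[simp] theorem bord_succ_succ (i j : Fin t) : bord H v i.succ j.succ = H i j := rfl

end bord

/-- Adjacency matrices of simple graphs, with integer entries. -/
def IsGr {t : ℕ} (H : Matrix (Fin t) (Fin t) ℤ) : Prop :=
  (∀ i j, H i j = 0 ∨ H i j = 1) ∧ (∀ i, H i i = 0) ∧ ∀ i j, H i j = H j i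

/-- The `0/1` vector of `b`. -/
def ind {t : ℕ} (b : Fin t → Bool) : Fin t → ℤ := fun j => if b j then 1 else 0

/-- The sum of the `u j` with `b j = true`. -/
def dotb {K : Type*} [AddCommMonoid K] {t : ℕ} (b : Fin t → Bool) (u : Fin t → K) : K :=
  ∑ j, if b j then u j else 0

/-- The solutions `u` of `H u = lam u` over the commutative ring `K`. -/
def EigK (K : Type*) [CommRing K] (lam : K) {t : ℕ} (H : Matrix (Fin t) (Fin t) ℤ) :
    Submodule K (Fin t → K) where
  carrier := {u | (H.map (fun z : ℤ => (z : K))).mulVec u = lam • u}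
  add_mem' := by
    intro a b ha hb
    simp only [Set.mem_ofPred_eq] at ha hb ⊢
    rw [Matrix.mulVec_add, ha, hb, smul_add]
  zero_mem' := by simp
  smul_mem' := by
    intro c a ha
    simp only [Set.mem_ofPred_eq] at ha ⊢
    rw [Matrix.mulVec_smul, ha, smul_comm]

theorem mem_EigK {K : Type*} [CommRing K] {lam : K} {t : ℕ} {H : Matrix (Fin t) (Fin t) ℤ}
    {u : Fin t → K} :
    u ∈ EigK K lam H ↔ ∀ i, ∑ j, (H i j : K) * u j = lam * u i := by
  constructor
  · intro h i
    have h1 : (H.map (fun z : ℤ => (z : K))).mulVec u = lam • u := h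
    have h2 := congrFun h1 i
    simpa [Matrix.mulVec, dotProduct] using h2
  · intro h
    have h1 : (H.map (fun z : ℤ => (z : K))).mulVec u = lam • u := by
      funext i
      simpa [Matrix.mulVec, dotProduct] using h i
    exact h1

/-- The points: the maximal ideals of `ℤ[X]`. -/
abbrev Pt := MaximalSpectrum ℤ[X]

/-- The residue field of a point. -/
abbrev KP (P : Pt) := ℤ[X] ⧸ P.asIdeal

/-- The class of `X` in the residue field. -/
noncomputable def lamP (P : Pt) : KP P := Ideal.Quotient.mk P.asIdeal X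

/-- The point `P` lies above the number `p`. -/
def Above (p : ℕ) (P : Pt) : Prop := ((p : ℕ) : ℤ[X]) ∈ P.asIdeal

/-- The dimension of the eigenspace of `H` at the point `P`. -/
noncomputable def crk (P : Pt) {t : ℕ} (H : Matrix (Fin t) (Fin t) ℤ) : ℕ :=
  Module.finrank (KP P) (EigK (KP P) (lamP P) H)

/-- The point `P` is bad for `H` and the vectors `B i`: there is an eigenvector orthogonal to
all of them. -/
def Bad (P : Pt) {t k : ℕ} (H : Matrix (Fin t) (Fin t) ℤ) (B : Fin k → Fin t → Bool) : Prop :=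
  ∃ u ∈ EigK (KP P) (lamP P) H, u ≠ 0 ∧ ∀ i, dotb (B i) u = 0

/-- The lattice generated by all `H ^ l b`, `b ∈ S`. -/
def Kry {t : ℕ} (H : Matrix (Fin t) (Fin t) ℤ) (S : Set (Fin t → ℤ)) :
    Submodule ℤ (Fin t → ℤ) :=
  Submodule.span ℤ {v | ∃ b ∈ S, ∃ l : ℕ, v = (H ^ l).mulVec b}

/-- Good graphs: small eigenspaces at all points, smaller ones at the points above `2`. -/
def Good (L : ℕ) {t : ℕ} (H : Matrix (Fin t) (Fin t) ℤ) : Prop :=
  ∀ P : Pt, (Above 2 P → crk P H ≤ 2 * L + 2) ∧ crk P H ≤ 5 * L + 3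

/-- `H` with two new non-adjacent vertices joined to `b` and `c`. -/
def dbl {m : ℕ} (H : Matrix (Fin m) (Fin m) ℤ) (b c : Fin m → Bool) :
    Matrix (Fin (m + 2)) (Fin (m + 2)) ℤ :=
  bord (bord H (ind b)) (Fin.cons 0 (ind c))

/-- The empty set. -/
def emp {m : ℕ} : Fin m → Bool := fun _ => false

/-- The empty set followed by the sets `B i`. -/
def ext {m k : ℕ} (B : Fin k → Fin m → Bool) : Fin (k + 1) → Fin m → Bool :=
  Fin.cons emp B

/-- The moments `bᵀ H ^ l c`. -/
def mom {m : ℕ} (H : Matrix (Fin m) (Fin m) ℤ) (b c : Fin m → Bool) (l : ℕ) : ℤ :=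
  ind b ⬝ᵥ (H ^ l).mulVec (ind c)

/-- The polynomial `vᵀ adj(X - H) w`. -/
noncomputable def PP {m : ℕ} (H : Matrix (Fin m) (Fin m) ℤ) (v w : Fin m → ℤ) : ℤ[X] :=
  (fun i => C (v i)) ⬝ᵥ (Matrix.adjugate (Matrix.charmatrix H)).mulVec (fun i => C (w i))

/-- The characteristic polynomials of the adjacency matrices of the graphs on `n` vertices. -/
def specs (n : ℕ) : Set ℤ[X] :=
  {p | ∃ (G : SimpleGraph (Fin n)) (_ : DecidableRel G.Adj), p = (G.adjMatrix ℤ).charpoly}

end Pool.Agent.helper42.NS
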