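import Pool.Agent.helper42.NS.Spec

/-!
# The number of different spectra, strong form `2 ^ (c n²)`: definitions
-/

namespace Pool.Agent.helper42.NS

open Polynomial Matrix

/-- `H` without the vertex `0`. -/
def tl {t : ℕ} (H : Matrix (Fin (t + 1)) (Fin (t + 1)) ℤ) : Matrix (Fin t) (Fin t) ℤ :=
  H.submatrix Fin.succ Fin.succ

@[simp] theorem tl_bord {t : ℕ} (H : Matrix (Fin t) (Fin t) ℤ) (v : Fin t → ℤ) :
    tl (bord H v) = H := rfl

/-- All the segments (`H`, `tl H`, `tl (tl H)`, ...) satisfy `Q`. -/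
def Hered (Q : ∀ t : ℕ, Matrix (Fin t) (Fin t) ℤ → Prop) :
    ∀ t : ℕ, Matrix (Fin t) (Fin t) ℤ → Prop
  | 0, H => Q 0 H
  | t + 1, H => Q (t + 1) H ∧ Hered Q t (tl H)

/-- The number of graphs on `Fin t` with the property `A`. -/
noncomputable def cnt (t : ℕ) (A : Matrix (Fin t) (Fin t) ℤ → Prop) : ℕ :=
  Set.ncard {H : Matrix (Fin t) (Fin t) ℤ | IsGr H ∧ A H}

/-- The number of elements of the residue field. -/
noncomputable def qP (P : Pt) : ℕ := Nat.card (KP P)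

/-- The point lies above a small prime. -/
def Sm (a : ℕ) (P : Pt) : Prop := ∃ p : ℕ, p.Prime ∧ Above p P ∧ p < 2 ^ (3 * a)

/-- No sparse eigenvectors at the points not above a small prime. -/
def R1 (a : ℕ) {t : ℕ} (H : Matrix (Fin t) (Fin t) ℤ) : Prop :=
  ∀ P : Pt, ¬ Sm a P → ∀ u ∈ EigK (KP P) (lamP P) H, u ≠ 0 →
    2 ^ (7 * a) < Set.ncard {j | u j ≠ 0}

/-- No nonzero additive functional of an eigenvector is sparse, at the points of small degree above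
small primes. -/
def R2 (a : ℕ) {t : ℕ} (H : Matrix (Fin t) (Fin t) ℤ) : Prop :=
  ∀ (P : Pt) (p : ℕ), p.Prime → Above p P → p < 2 ^ (3 * a) → qP P ≤ p ^ (60 * a) →
    ∀ φ : KP P →+ ZMod p, φ ≠ 0 → ∀ y ∈ EigK (KP P) (lamP P) H, y ≠ 0 →
      2 ^ (7 * a) < Set.ncard {j | φ (y j) ≠ 0}

/-- The first hereditary property. -/
def Q1 (a : ℕ) (t : ℕ) (H : Matrix (Fin t) (Fin t) ℤ) : Prop :=
  Good (10 * a + 3) H ∧ (2 ^ (10 * a - 1) ≤ t → R1 a H ∧ R2 a H)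

/-- The second hereditary property. -/
def Q2 (a p : ℕ) (t : ℕ) (H : Matrix (Fin t) (Fin t) ℤ) : Prop :=
  Q1 a t H ∧ (3 * 2 ^ (10 * a - 2) ≤ t → ∀ P : Pt, Above p P → crk P H ≤ 24)

/-- The final property. -/
def Fine (a p : ℕ) {m : ℕ} (H : Matrix (Fin m) (Fin m) ℤ) : Prop :=
  Good (10 * a + 3) H ∧ R1 a H ∧ R2 a H ∧ (∀ P : Pt, Above p P → crk P H ≤ 24) ∧
    (∀ P : Pt, 2 ^ a ≤ qP P → crk P H ≤ 81) ∧ ∀ P : Pt, qP P < 2 ^ a → crk P H ≤ 6

/-- `H` with the rows and columns in `S` replaced by zero, modulo `p`. -/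
def zer (p : ℕ) {t : ℕ} (H : Matrix (Fin t) (Fin t) ℤ) (S : Finset (Fin t)) :
    Matrix (Fin t) (Fin t) (ZMod p) :=
  Matrix.of fun i j => if i ∈ S ∨ j ∈ S then 0 else (H i j : ZMod p)

/-- The same over the integers. -/
def zerZ {t : ℕ} (H : Matrix (Fin t) (Fin t) ℤ) (S : Finset (Fin t)) :
    Matrix (Fin t) (Fin t) ℤ :=
  Matrix.of fun i j => if i ∈ S ∨ j ∈ S then 0 else H i j

/-- The column `s` of `H` outside `S`, modulo `p`. -/
def colS (p : ℕ) {t : ℕ} (H : Matrix (Fin t) (Fin t) ℤ) (S : Finset (Fin t)) (s : Fin t) :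
    Fin t → ZMod p :=
  fun j => if j ∈ S then 0 else (H j s : ZMod p)

/-- The relation `∑_(s ∈ S) g_s(Ĥ) b̂_s = 0`. -/
def Rel (p : ℕ) {t : ℕ} (H : Matrix (Fin t) (Fin t) ℤ) (S : Finset (Fin t))
    (g : Fin t → (ZMod p)[X]) : Prop :=
  ∑ s ∈ S, (Polynomial.aeval (zer p H S) (g s)).mulVec (colS p H S s) = 0

end Pool.Agent.helper42.NS
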