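import Pool.Agent.helper42.NS.Spec2

set_option autoImplicit false

/-!
# Row nos2:FBB
-/

namespace Pool.Agent.helper42.NS

open Polynomial Matrix

/-- FBB. -/
theorem FBB (h1 : FIN_stmt) (h2 : LOA_stmt) (h3 : LCA_stmt) (h4 : LB_stmt) : FBB_stmt := by
  intro a t P H u ha hR1 hR2 hq hu hu0
  obtain ⟨-, p, hp, hab, huniq, d, hd, hqd⟩ := h1 P
  have hmono : (2 : ℕ) ^ (a - 1) ≤ 2 ^ a := Nat.pow_le_pow_right (by norm_num) (by omega)
  by_cases hsm : p < 2 ^ (3 * a)
  · by_cases hqp : qP P ≤ p ^ (60 * a)
    · -- Fourier case
      have hM := P.isMaximal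
      let _ : Field (KP P) := Ideal.Quotient.field P.asIdeal
      have h5 := h3 a t p P H (Submodule.span (KP P) {u}) hp hab hsm hqp hR2
        (by rw [Submodule.span_singleton_le_iff_mem]; exact hu)
      have hfr : Module.finrank (KP P) (Submodule.span (KP P) {u}) = 1 :=
        finrank_span_singleton hu0
      rw [hfr, pow_one] at h5
      have hset : {b : Fin t → Bool | ∀ v ∈ Submodule.span (KP P) {u}, dotb b v = 0} =
          {b : Fin t → Bool | dotb b u = 0} := by
        ext b
        constructor
        · intro h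
          exact h u (Submodule.mem_span_singleton_self u)
        · intro h v hv
          obtain ⟨c, rfl⟩ := Submodule.mem_span_singleton.1 hv
          have h6 : dotb b (c • u) = c * dotb b u := by
            unfold dotb
            rw [Finset.mul_sum]
            apply Finset.sum_congr rfl
            intro j _
            by_cases hb : b j = true
            · rw [if_pos hb, if_pos hb]; rfl
            · rw [if_neg hb, if_neg hb, mul_zero]
          rw [h6]
          have h7 : dotb b u = 0 := h
          rw [h7, mul_zero]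
      rw [hset] at h5
      have h6 : (1 : ℝ) / (qP P : ℝ) ≤ 1 / 2 ^ a := by
        apply one_div_le_one_div_of_le (by positivity)
        exact_mod_cast hq
      have h7 : (1 : ℝ) / 2 ^ (2 ^ a) ≤ 1 / 2 ^ a := by
        apply one_div_le_one_div_of_le (by positivity)
        exact pow_le_pow_right₀ (by norm_num) (Nat.lt_two_pow_self).le
      have h8 : (2 : ℝ) ^ t * (1 / (qP P : ℝ) + 1 / 2 ^ (2 ^ a)) ≤
          2 ^ t * (1 / 2 ^ a + 1 / 2 ^ a) :=
        mul_le_mul_of_nonneg_left (by linarith) (by positivity)
      have h9 := h5.trans h8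
      have h10 : (Set.ncard {b : Fin t → Bool | dotb b u = 0} : ℝ) * 2 ^ (a - 1) ≤ 2 ^ t := by
        calc (Set.ncard {b : Fin t → Bool | dotb b u = 0} : ℝ) * 2 ^ (a - 1)
            ≤ (2 ^ t * (1 / 2 ^ a + 1 / 2 ^ a)) * 2 ^ (a - 1) :=
              mul_le_mul_of_nonneg_right h9 (by positivity)
          _ = 2 ^ t := by
              obtain ⟨e, rfl⟩ : ∃ e, a = e + 1 := ⟨a - 1, by omega⟩
              rw [Nat.add_sub_cancel, pow_succ]
              field_simp
              ring
      exact_mod_cast h10
    · -- large degree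
      have hda : 60 * a < d := by
        by_contra hcon
        apply hqp
        rw [hqd]
        exact Nat.pow_le_pow_right hp.pos (by omega)
      have h5 := h4 t p d P H u hp hab hqd hu hu0
      have h6 : (2 : ℕ) ^ (a - 1) ≤ 2 ^ d := Nat.pow_le_pow_right (by norm_num) (by omega)
      exact (Nat.mul_le_mul_left _ h6).trans h5
  · -- large prime
    have hns : ¬ Sm a P := by
      rintro ⟨p', hp', hab', hlt⟩
      rw [huniq p' hp' hab'] at hlt
      exact hsm hlt
    have h5 := h2 a t P u ha hns (hR1 P hns u hu hu0)
    exact (Nat.mul_le_mul_left _ hmono).trans h5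

end Pool.Agent.helper42.NS
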