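import Pool.Agent.helper42.NS.Spec

set_option autoImplicit false

/-!
# Row nos:JAC
-/

namespace Pool.Agent.helper42.NS

open Polynomial Matrix

theorem JAC_det {R : Type} [CommRing R] [IsDomain R] {m : ℕ} (A : Matrix (Fin 2) (Fin 2) R)
    (B : Matrix (Fin 2) (Fin m) R) (C₀ : Matrix (Fin m) (Fin 2) R) (M : Matrix (Fin m) (Fin m) R)
    (hM : M.det ≠ 0) :
    (Matrix.fromBlocks A B C₀ M).det * M.det = (M.det • A - B * (M.adjugate * C₀)).det := by
  have h1 : Matrix.fromBlocks A B C₀ M *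
      Matrix.fromBlocks (M.det • (1 : Matrix (Fin 2) (Fin 2) R)) 0 (-(M.adjugate * C₀)) 1 =
      Matrix.fromBlocks (M.det • A - B * (M.adjugate * C₀)) B 0 M := by
    rw [Matrix.fromBlocks_multiply]
    have e1 : A * M.det • (1 : Matrix (Fin 2) (Fin 2) R) + B * -(M.adjugate * C₀) =
        M.det • A - B * (M.adjugate * C₀) := by
      rw [Matrix.mul_smul, Matrix.mul_one, Matrix.mul_neg, sub_eq_add_neg]
    have e2 : A * (0 : Matrix (Fin 2) (Fin m) R) + B * (1 : Matrix (Fin m) (Fin m) R) = B := by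
      rw [Matrix.mul_zero, zero_add, Matrix.mul_one]
    have e3 : C₀ * M.det • (1 : Matrix (Fin 2) (Fin 2) R) + M * -(M.adjugate * C₀) = 0 := by
      rw [Matrix.mul_smul, Matrix.mul_one, Matrix.mul_neg, ← Matrix.mul_assoc,
        Matrix.mul_adjugate, Matrix.smul_mul, Matrix.one_mul, add_neg_cancel]
    have e4 : C₀ * (0 : Matrix (Fin 2) (Fin m) R) + M * (1 : Matrix (Fin m) (Fin m) R) = M := by
      rw [Matrix.mul_zero, zero_add, Matrix.mul_one]
    rw [e1, e2, e3, e4]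
  have h2 := congrArg Matrix.det h1
  rw [Matrix.det_mul, Matrix.det_fromBlocks_zero₁₂, Matrix.det_fromBlocks_zero₂₁,
    Matrix.det_smul, Matrix.det_one, Matrix.det_one, Fintype.card_fin, mul_one, mul_one] at h2
  apply mul_right_cancel₀ hM
  rw [← h2]
  ring

/-- The vertices `0, 1` first. -/
def JAC_e (m : ℕ) : Fin 2 ⊕ Fin m ≃ Fin (m + 2) :=
  finSumFinEquiv.trans (finCongr (Nat.add_comm 2 m))

theorem JAC_e0 (m : ℕ) : JAC_e m (Sum.inl 0) = 0 := rfl

theorem JAC_e1 (m : ℕ) : JAC_e m (Sum.inl 1) = (0 : Fin (m + 1)).succ := rfl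

theorem JAC_er (m : ℕ) (i : Fin m) : JAC_e m (Sum.inr i) = i.succ.succ := by
  apply Fin.ext
  show 2 + (i : ℕ) = (i : ℕ) + 1 + 1
  omega

theorem JAC_pp {m : ℕ} (H : Matrix (Fin m) (Fin m) ℤ) (b c : Fin m → ℤ)
    (x y : Fin m → ℤ[X]) (hx : ∀ i, x i = -C (b i)) (hy : ∀ i, y i = -C (c i)) :
    x ⬝ᵥ (Matrix.adjugate (Matrix.charmatrix H)).mulVec y = PP H b c := by
  have h1 : x = -fun i => C (b i) := funext hx
  have h2 : y = -fun i => C (c i) := funext hy
  rw [h1, h2, Matrix.mulVec_neg, neg_dotProduct_neg]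
  rfl

theorem JAC_symm {m : ℕ} (H : Matrix (Fin m) (Fin m) ℤ) (hH : ∀ i j, H i j = H j i)
    (b c : Fin m → ℤ) : PP H c b = PP H b c := by
  unfold PP
  have h1 : (Matrix.charmatrix H)ᵀ = Matrix.charmatrix H := by
    ext i j
    rw [Matrix.transpose_apply, Matrix.charmatrix_apply, Matrix.charmatrix_apply, hH j i,
      Matrix.diagonal_apply, Matrix.diagonal_apply]
    by_cases hij : i = j
    · subst hij; rfl
    · rw [if_neg hij, if_neg (fun h => hij h.symm)]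
  have h2 : (Matrix.adjugate (Matrix.charmatrix H))ᵀ = Matrix.adjugate (Matrix.charmatrix H) := by
    rw [Matrix.adjugate_transpose, h1]
  rw [Matrix.dotProduct_mulVec, ← Matrix.mulVec_transpose, h2, dotProduct_comm]

/-- JAC. -/
theorem JAC (h : BOR_stmt) : JAC_stmt := by
  intro m H b c hH
  obtain ⟨N, hN⟩ : ∃ N : Matrix (Fin (m + 2)) (Fin (m + 2)) ℤ[X],
    N = Matrix.charmatrix (dbl H b c) := ⟨_, rfl⟩
  have hdet : (dbl H b c).charpoly = (N.submatrix (JAC_e m) (JAC_e m)).det := by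
    rw [Matrix.det_submatrix_equiv_self, hN]
    rfl
  have hblk := Matrix.fromBlocks_toBlocks (N.submatrix (JAC_e m) (JAC_e m))
  have hM : (N.submatrix (JAC_e m) (JAC_e m)).toBlocks₂₂ = Matrix.charmatrix H := by
    ext1 i j
    show N (JAC_e m (Sum.inr i)) (JAC_e m (Sum.inr j)) = _
    rw [JAC_er, JAC_er, hN, Matrix.charmatrix_apply, Matrix.charmatrix_apply]
    have e1 : dbl H b c i.succ.succ j.succ.succ = H i j := rfl
    rw [e1]
    congr 1
    rw [Matrix.diagonal_apply, Matrix.diagonal_apply]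
    simp
  have hoff : ∀ i j : Fin (m + 2), i ≠ j → N i j = -C (dbl H b c i j) := by
    intro i j hij
    rw [hN, Matrix.charmatrix_apply, Matrix.diagonal_apply_ne _ hij, zero_sub]
  have hB0 : ∀ j : Fin m, (N.submatrix (JAC_e m) (JAC_e m)).toBlocks₁₂ 0 j = -C (ind c j) := by
    intro j
    show N (JAC_e m (Sum.inl 0)) (JAC_e m (Sum.inr j)) = _
    rw [JAC_e0, JAC_er, hoff _ _ (Fin.succ_ne_zero _).symm]
    rfl
  have hB1 : ∀ j : Fin m, (N.submatrix (JAC_e m) (JAC_e m)).toBlocks₁₂ 1 j = -C (ind b j) := by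
    intro j
    show N (JAC_e m (Sum.inl 1)) (JAC_e m (Sum.inr j)) = _
    rw [JAC_e1, JAC_er, hoff _ _ (fun h0 => Fin.succ_ne_zero j (Fin.succ_injective _ h0).symm)]
    rfl
  have hC0 : ∀ j : Fin m, (N.submatrix (JAC_e m) (JAC_e m)).toBlocks₂₁ j 0 = -C (ind c j) := by
    intro j
    show N (JAC_e m (Sum.inr j)) (JAC_e m (Sum.inl 0)) = _
    rw [JAC_e0, JAC_er, hoff _ _ (Fin.succ_ne_zero _)]
    rfl
  have hC1 : ∀ j : Fin m, (N.submatrix (JAC_e m) (JAC_e m)).toBlocks₂₁ j 1 = -C (ind b j) := by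
    intro j
    show N (JAC_e m (Sum.inr j)) (JAC_e m (Sum.inl 1)) = _
    rw [JAC_e1, JAC_er, hoff _ _ (fun h0 => Fin.succ_ne_zero j (Fin.succ_injective _ h0))]
    rfl
  have hA00 : (N.submatrix (JAC_e m) (JAC_e m)).toBlocks₁₁ 0 0 = X := by
    show N (JAC_e m (Sum.inl 0)) (JAC_e m (Sum.inl 0)) = X
    rw [JAC_e0, hN, Matrix.charmatrix_apply, Matrix.diagonal_apply_eq]
    have e1 : dbl H b c 0 0 = 0 := rfl
    rw [e1, map_zero, sub_zero]
  have hA11 : (N.submatrix (JAC_e m) (JAC_e m)).toBlocks₁₁ 1 1 = X := by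
    show N (JAC_e m (Sum.inl 1)) (JAC_e m (Sum.inl 1)) = X
    rw [JAC_e1, hN, Matrix.charmatrix_apply, Matrix.diagonal_apply_eq]
    have e1 : dbl H b c (0 : Fin (m + 1)).succ (0 : Fin (m + 1)).succ = 0 := rfl
    rw [e1, map_zero, sub_zero]
  have hA01 : (N.submatrix (JAC_e m) (JAC_e m)).toBlocks₁₁ 0 1 = 0 := by
    show N (JAC_e m (Sum.inl 0)) (JAC_e m (Sum.inl 1)) = 0
    rw [JAC_e0, JAC_e1, hoff _ _ (Fin.succ_ne_zero _).symm]
    have e1 : dbl H b c 0 (0 : Fin (m + 1)).succ = 0 := rfl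
    rw [e1, map_zero, neg_zero]
  have hA10 : (N.submatrix (JAC_e m) (JAC_e m)).toBlocks₁₁ 1 0 = 0 := by
    show N (JAC_e m (Sum.inl 1)) (JAC_e m (Sum.inl 0)) = 0
    rw [JAC_e0, JAC_e1, hoff _ _ (Fin.succ_ne_zero _)]
    have e1 : dbl H b c (0 : Fin (m + 1)).succ 0 = 0 := rfl
    rw [e1, map_zero, neg_zero]
  have key := JAC_det (N.submatrix (JAC_e m) (JAC_e m)).toBlocks₁₁
    (N.submatrix (JAC_e m) (JAC_e m)).toBlocks₁₂ (N.submatrix (JAC_e m) (JAC_e m)).toBlocks₂₁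
    (Matrix.charmatrix H) (Matrix.charpoly_monic H).ne_zero
  have hblk' : Matrix.fromBlocks (N.submatrix (JAC_e m) (JAC_e m)).toBlocks₁₁
    (N.submatrix (JAC_e m) (JAC_e m)).toBlocks₁₂ (N.submatrix (JAC_e m) (JAC_e m)).toBlocks₂₁
    (Matrix.charmatrix H) = N.submatrix (JAC_e m) (JAC_e m) := by
    rw [← hM]; exact hblk
  rw [hblk', ← hdet] at key
  have hent : ∀ i j : Fin 2, ((N.submatrix (JAC_e m) (JAC_e m)).toBlocks₁₂ *
      ((Matrix.charmatrix H).adjugate * (N.submatrix (JAC_e m) (JAC_e m)).toBlocks₂₁)) i j =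
      (fun k => (N.submatrix (JAC_e m) (JAC_e m)).toBlocks₁₂ i k) ⬝ᵥ
        (Matrix.charmatrix H).adjugate.mulVec
          (fun k => (N.submatrix (JAC_e m) (JAC_e m)).toBlocks₂₁ k j) := by
    intro i j
    rfl
  have hφ : (Matrix.charmatrix H).det = H.charpoly := rfl
  rw [Matrix.det_fin_two, hφ] at key
  simp only [Matrix.sub_apply, Matrix.smul_apply, smul_eq_mul, hA00, hA11, hA01, hA10, hent,
    mul_zero, zero_sub] at key
  rw [JAC_pp H (ind c) (ind c) _ _ hB0 hC0, JAC_pp H (ind b) (ind b) _ _ hB1 hC1,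
    JAC_pp H (ind c) (ind b) _ _ hB0 hC1, JAC_pp H (ind b) (ind c) _ _ hB1 hC0,
    JAC_symm H hH (ind b) (ind c)] at key
  rw [h m H (ind b), h m H (ind c)]
  linear_combination key

end Pool.Agent.helper42.NS
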