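import Pool.Agent.helper42.NS.Spec2
import Pool.Agent.helper77.NS.FIN

set_option autoImplicit false

/-!
# Row nos2:LCA
-/

namespace Pool.Agent.helper42.NS

open Polynomial Matrix

theorem LCA_phi (P : Pt) (p : ℕ) (hp : p.Prime) (h : Above p P) :
    ∃ φ : KP P →+ ZMod p, φ ≠ 0 := by
  have hM := P.isMaximal
  have : Fact p.Prime := ⟨hp⟩
  have h0 := FIN_zero P p h
  let _ : Module (ZMod p) (KP P) := AddCommGroup.zmodModule (n := p) (fun x => by
    rw [nsmul_eq_mul, h0, zero_mul])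
  let b := Module.Basis.ofVectorSpace (ZMod p) (KP P)
  by_contra hc
  push Not at hc
  have h1 : (1 : KP P) = 0 := by
    refine b.forall_coord_eq_zero_iff.1 ?_
    intro i
    have h2 := hc (b.coord i).toAddMonoidHom
    have h3 : (b.coord i).toAddMonoidHom (1 : KP P) = 0 := by rw [h2]; rfl
    exact h3
  let _ : Field (KP P) := Ideal.Quotient.field P.asIdeal
  exact one_ne_zero h1

theorem LCA_num (a p : ℕ) (hp : p.Prime) (h : p < 2 ^ (3 * a)) :
    (1 - 1 / (p : ℝ) ^ 2) ^ (2 ^ (7 * a)) ≤ 1 / 2 ^ (2 ^ a) := by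
  have hp0 : (0 : ℝ) < p := by exact_mod_cast hp.pos
  have hp1 : (1 : ℝ) ≤ p := by exact_mod_cast hp.one_lt.le
  have hple : (p : ℝ) ≤ 2 ^ (3 * a) := by exact_mod_cast h.le
  have h1 : (p : ℝ) ^ 2 ≤ 2 ^ (6 * a) := by
    calc (p : ℝ) ^ 2 ≤ (2 ^ (3 * a)) ^ 2 := by
          apply pow_le_pow_left₀ hp0.le hple
      _ = 2 ^ (6 * a) := by rw [← pow_mul]; ring_nf
  have h2 : 1 - 1 / (p : ℝ) ^ 2 ≤ Real.exp (-(1 / (p : ℝ) ^ 2)) := by
    have := Real.add_one_le_exp (-(1 / (p : ℝ) ^ 2))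
    linarith
  have h3 : 0 ≤ 1 - 1 / (p : ℝ) ^ 2 := by
    have h4 : (1 : ℝ) ≤ (p : ℝ) ^ 2 := one_le_pow₀ hp1
    have h5 : 1 / (p : ℝ) ^ 2 ≤ 1 := by
      rw [div_le_one (by positivity)]; exact h4
    linarith
  calc (1 - 1 / (p : ℝ) ^ 2) ^ (2 ^ (7 * a))
      ≤ (Real.exp (-(1 / (p : ℝ) ^ 2))) ^ (2 ^ (7 * a)) := pow_le_pow_left₀ h3 h2 _
    _ = Real.exp (-((2 : ℝ) ^ (7 * a) / (p : ℝ) ^ 2)) := by
        rw [← Real.exp_nat_mul]
        congr 1
        push_cast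
        ring
    _ ≤ Real.exp (-((2 : ℝ) ^ a)) := by
        apply Real.exp_le_exp.2
        apply neg_le_neg
        rw [le_div_iff₀ (by positivity)]
        calc (2 : ℝ) ^ a * (p : ℝ) ^ 2 ≤ 2 ^ a * 2 ^ (6 * a) :=
              mul_le_mul_of_nonneg_left h1 (by positivity)
          _ = 2 ^ (7 * a) := by rw [← pow_add]; ring_nf
    _ ≤ 1 / 2 ^ (2 ^ a) := by
        rw [Real.exp_neg, one_div]
        apply inv_anti₀ (by positivity)
        have h6 : (2 : ℝ) ≤ Real.exp 1 := by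
          have := Real.add_one_le_exp (1 : ℝ)
          linarith
        have h7 : Real.exp ((2 : ℝ) ^ a) = Real.exp 1 ^ (2 ^ a) := by
          rw [← Real.exp_nat_mul]
          push_cast
          rw [mul_one]
        rw [h7]
        exact pow_le_pow_left₀ (by norm_num) h6 _

/-- LCA. -/
theorem LCA (_ : FIN_stmt) (h2 : LCF_stmt) : LCA_stmt := by
  intro a t p P H E hp hab hsm hq hR2 hE
  obtain ⟨φ, hφ⟩ := LCA_phi P p hp hab
  have h3 := h2 t p (2 ^ (7 * a)) P E φ hp hab hφ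
    (fun y hy hy0 => hR2 P p hp hab hsm hq φ hφ y (hE hy) hy0)
  have h4 := LCA_num a p hp hsm
  have h5 : (2 : ℝ) ^ t * (1 / (qP P : ℝ) ^ Module.finrank (KP P) E +
      (1 - 1 / (p : ℝ) ^ 2) ^ (2 ^ (7 * a))) ≤
      2 ^ t * (1 / (qP P : ℝ) ^ Module.finrank (KP P) E + 1 / 2 ^ (2 ^ a)) := by
    apply mul_le_mul_of_nonneg_left _ (by positivity)
    linarith
  exact h3.trans h5

end Pool.Agent.helper42.NS
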