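import Pool.Agent.helper42.NS.Spec2

set_option autoImplicit false

/-!
# Row nos2:LCF
-/

namespace Pool.Agent.helper42.NS

open Polynomial Matrix

theorem LCF_map_sum {A R ι : Type*} [AddCommMonoid A] [CommMonoid R] (ψ : AddChar A R)
    (s : Finset ι) (f : ι → A) : ψ (∑ i ∈ s, f i) = ∏ i ∈ s, ψ (f i) := by
  classical
  induction s using Finset.induction_on with
  | empty => simp
  | insert a s ha ih => rw [Finset.sum_insert ha, Finset.prod_insert ha, AddChar.map_add_eq_mul, ih]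

theorem LCF_cos (p k : ℕ) (hp : 0 < p) (hk : 0 < k) (hkp : k < p) :
    Real.cos (2 * Real.pi * k / p) ≤ 1 - 4 / (p : ℝ) ^ 2 := by
  have hpR : (0 : ℝ) < p := by exact_mod_cast hp
  have hpi := Real.pi_pos
  have key : ∀ k : ℕ, 0 < k → 2 * k ≤ p →
      Real.cos (2 * Real.pi * k / p) ≤ 1 - 4 / (p : ℝ) ^ 2 := by
    intro k hk h2
    have hkR : (1 : ℝ) ≤ k := by exact_mod_cast hk
    have h2R : 2 * (k : ℝ) ≤ p := by exact_mod_cast h2
    have hx0 : 0 ≤ 2 * Real.pi * k / p := by positivity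
    have hx1 : 2 * Real.pi * k / p ≤ Real.pi := by
      rw [div_le_iff₀ hpR]
      nlinarith
    have h3 := Real.cos_le_one_sub_mul_cos_sq (x := 2 * Real.pi * k / p)
      (by rw [abs_of_nonneg hx0]; exact hx1)
    have h4 : 2 / Real.pi ^ 2 * (2 * Real.pi * k / p) ^ 2 = 8 * (k : ℝ) ^ 2 / (p : ℝ) ^ 2 := by
      field_simp
      ring
    rw [h4] at h3
    have h5 : 4 / (p : ℝ) ^ 2 ≤ 8 * (k : ℝ) ^ 2 / (p : ℝ) ^ 2 := by
      apply div_le_div_of_nonneg_right _ (by positivity)
      nlinarith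
    linarith
  by_cases h : 2 * k ≤ p
  · exact key k hk h
  · have h1 := key (p - k) (by omega) (by omega)
    have h2 : Real.cos (2 * Real.pi * k / p) = Real.cos (2 * Real.pi * ((p - k : ℕ) : ℝ) / p) := by
      rw [Nat.cast_sub hkp.le]
      have h3 : 2 * Real.pi * ((p : ℝ) - k) / p = 2 * Real.pi - 2 * Real.pi * k / p := by
        field_simp
      rw [h3, Real.cos_two_pi_sub]
    rw [h2]
    exact h1

theorem LCF_norm (p : ℕ) [Fact p.Prime] (x : ZMod p) (hx : x ≠ 0) :
    ‖1 + ZMod.stdAddChar x‖ ≤ 2 * (1 - 1 / (p : ℝ) ^ 2) := by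
  have hp : 0 < p := (Fact.out : p.Prime).pos
  have hp1 : 1 < p := (Fact.out : p.Prime).one_lt
  have hpR : (1 : ℝ) < p := by exact_mod_cast hp1
  have hk : 0 < x.val := by
    rcases Nat.eq_zero_or_pos x.val with h | h
    · exact absurd ((ZMod.val_eq_zero x).1 h) hx
    · exact h
  have hkp : x.val < p := ZMod.val_lt x
  have hcos := LCF_cos p x.val hp hk hkp
  have hz : ZMod.stdAddChar x =
      Complex.exp (((2 * Real.pi * x.val / p : ℝ) : ℂ) * Complex.I) := by
    have h1 : ((x.val : ℤ) : ZMod p) = x := by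
      push_cast
      exact ZMod.natCast_zmod_val x
    have h2 := ZMod.stdAddChar_coe (N := p) (x.val : ℤ)
    rw [h1] at h2
    rw [h2]
    congr 1
    push_cast
    ring
  have hn : ‖1 + ZMod.stdAddChar x‖ ^ 2 = 2 + 2 * Real.cos (2 * Real.pi * x.val / p) := by
    rw [hz, Complex.exp_ofReal_mul_I, ← Complex.normSq_eq_norm_sq, Complex.normSq_apply]
    simp only [Complex.add_re, Complex.add_im, Complex.one_re, Complex.one_im]
    simp only [Complex.ofReal_re, Complex.ofReal_im, Complex.mul_re, Complex.mul_im,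
      Complex.I_re, Complex.I_im]
    have := Real.sin_sq_add_cos_sq (2 * Real.pi * x.val / p)
    nlinarith
  have hr0 : 0 ≤ 1 / (p : ℝ) ^ 2 := by positivity
  have hr1 : 1 / (p : ℝ) ^ 2 ≤ 1 := by
    rw [div_le_one (by positivity)]
    exact one_le_pow₀ hpR.le
  have h4 : 4 / (p : ℝ) ^ 2 = 4 * (1 / (p : ℝ) ^ 2) := by ring
  rw [h4] at hcos
  have h5 : ‖1 + ZMod.stdAddChar x‖ ^ 2 ≤ (2 * (1 - 1 / (p : ℝ) ^ 2)) ^ 2 := by
    rw [hn]
    nlinarith [sq_nonneg (1 / (p : ℝ) ^ 2)]
  exact le_of_sq_le_sq h5 (by linarith)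

theorem LCF_norm_le (p : ℕ) [Fact p.Prime] (x : ZMod p) :
    ‖1 + ZMod.stdAddChar x‖ ≤ 2 := by
  refine (norm_add_le _ _).trans ?_
  rw [norm_one, ZMod.stdAddChar_apply, Circle.norm_coe]
  norm_num

theorem LCF_core (K : Type) [Field K] [Finite K] (p : ℕ) [Fact p.Prime] (t s : ℕ)
    (E : Submodule K (Fin t → K)) (φ : K →+ ZMod p) (hφ : φ ≠ 0)
    (h : ∀ y ∈ E, y ≠ 0 → s < Set.ncard {j | φ (y j) ≠ 0}) :
    (Set.ncard {b : Fin t → Bool | ∀ u ∈ E, dotb b u = 0} : ℝ) ≤
      2 ^ t * (1 / (Nat.card K : ℝ) ^ Module.finrank K E + (1 - 1 / (p : ℝ) ^ 2) ^ s) := by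
  classical
  have _ : Fintype K := Fintype.ofFinite K
  have _ : Fintype E := Fintype.ofFinite E
  have hcard : Nat.card E = Nat.card K ^ Module.finrank K E := Module.natCard_eq_pow_finrank
  have hEpos : 0 < Nat.card E := Nat.card_pos
  have hcE : (Fintype.card E : ℝ) = (Nat.card K : ℝ) ^ Module.finrank K E := by
    rw [← Nat.card_eq_fintype_card, hcard]
    push_cast
    rfl
  -- the characters
  let dh : (Fin t → Bool) → (E →+ K) := fun b =>
    { toFun := fun y => dotb b y.1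
      map_zero' := by simp [dotb]
      map_add' := fun y z => by
        unfold dotb
        rw [← Finset.sum_add_distrib]
        apply Finset.sum_congr rfl
        intro j _
        by_cases hb : b j = true
        · rw [if_pos hb, if_pos hb, if_pos hb]; rfl
        · rw [if_neg hb, if_neg hb, if_neg hb, add_zero] }
  have hdh : ∀ b y, dh b y = dotb b y.1 := fun _ _ => rfl
  let Ψ : (Fin t → Bool) → AddChar E ℂ := fun b =>
    (ZMod.stdAddChar (N := p)).compAddMonoidHom (φ.comp (dh b))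
  have hΨ : ∀ b y, Ψ b y = ZMod.stdAddChar (φ (dotb b y.1)) := fun _ _ => rfl
  have hΨ0 : ∀ b, Ψ b = 0 → ∀ u ∈ E, dotb b u = 0 := by
    intro b hb u hu
    by_contra hne
    apply hφ
    ext c
    have h1 : Ψ b ⟨(c * (dotb b u)⁻¹) • u, E.smul_mem _ hu⟩ = 1 := by
      rw [hb]; rfl
    rw [hΨ] at h1
    have h2 : dotb b ((c * (dotb b u)⁻¹) • u) = c := by
      have h3 : dotb b ((c * (dotb b u)⁻¹) • u) = (c * (dotb b u)⁻¹) * dotb b u := by
        unfold dotb
        rw [Finset.mul_sum]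
        apply Finset.sum_congr rfl
        intro j _
        by_cases hbj : b j = true
        · rw [if_pos hbj, if_pos hbj]; rfl
        · rw [if_neg hbj, if_neg hbj, mul_zero]
      rw [h3, mul_assoc, inv_mul_cancel₀ hne, mul_one]
    have h4 : ZMod.stdAddChar (φ (dotb b ((c * (dotb b u)⁻¹) • u))) = 1 := h1
    rw [h2] at h4
    have h5 := (AddChar.injective_iff.1 (ZMod.injective_stdAddChar (N := p))) h4
    simpa using h5
  -- the double sum
  have hN : ((Set.ncard {b : Fin t → Bool | ∀ u ∈ E, dotb b u = 0} : ℕ) : ℂ) *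
      (Fintype.card E : ℂ) = ∑ b : Fin t → Bool, ∑ y : E, Ψ b y := by
    have h1 : ∀ b : Fin t → Bool, ∑ y : E, Ψ b y =
        if (∀ u ∈ E, dotb b u = 0) then (Fintype.card E : ℂ) else 0 := by
      intro b
      rw [AddChar.sum_eq_ite]
      by_cases hb : ∀ u ∈ E, dotb b u = 0
      · rw [if_pos hb, if_pos]
        rw [AddChar.eq_zero_iff]
        intro y
        rw [hΨ, hb y.1 y.2, map_zero, AddChar.map_zero_eq_one]
      · rw [if_neg hb, if_neg]
        exact fun h0 => hb (hΨ0 b h0)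
    rw [Finset.sum_congr rfl (fun b _ => h1 b), ← Finset.sum_filter, Finset.sum_const,
      nsmul_eq_mul]
    congr 2
    rw [← Set.ncard_coe_finset]
    congr 1
    ext b
    simp
  have hprod : ∀ y : E, ∑ b : Fin t → Bool, Ψ b y =
      ∏ j, (1 + ZMod.stdAddChar (φ (y.1 j))) := by
    intro y
    have h1 : ∀ b : Fin t → Bool, Ψ b y =
        ∏ j, (if b j then ZMod.stdAddChar (φ (y.1 j)) else (1 : ℂ)) := by
      intro b
      rw [hΨ]
      unfold dotb
      rw [map_sum, LCF_map_sum]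
      apply Finset.prod_congr rfl
      intro j _
      by_cases hb : b j = true
      · rw [if_pos hb, if_pos hb]
      · rw [if_neg hb, if_neg hb, map_zero, AddChar.map_zero_eq_one]
    rw [Finset.sum_congr rfl (fun b _ => h1 b)]
    have h2 := Finset.prod_univ_sum (fun _ : Fin t => (Finset.univ : Finset Bool))
      (fun j c => if c then ZMod.stdAddChar (φ (y.1 j)) else (1 : ℂ))
    rw [Fintype.piFinset_univ] at h2
    rw [← h2]
    apply Finset.prod_congr rfl
    intro j _
    rw [Fintype.sum_bool]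
    simp only [if_true, Bool.false_eq_true, if_false]
    ring
  rw [Finset.sum_comm] at hN
  have hbound : ∀ y : E, ‖∑ b : Fin t → Bool, Ψ b y‖ ≤
      (if y = 0 then (2 : ℝ) ^ t else 0) + 2 ^ t * (1 - 1 / (p : ℝ) ^ 2) ^ s := by
    intro y
    have hpR : (1 : ℝ) < p := by exact_mod_cast (Fact.out : p.Prime).one_lt
    have hr0 : 0 ≤ 1 / (p : ℝ) ^ 2 := by positivity
    have hr1 : 1 / (p : ℝ) ^ 2 ≤ 1 := by
      rw [div_le_one (by positivity)]
      exact one_le_pow₀ hpR.le
    have hx0 : 0 ≤ 1 - 1 / (p : ℝ) ^ 2 := by linarith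
    have hx1 : 1 - 1 / (p : ℝ) ^ 2 ≤ 1 := by linarith
    rw [hprod, norm_prod]
    by_cases hy : y = 0
    · rw [if_pos hy]
      have h1 : ∏ j : Fin t, ‖1 + ZMod.stdAddChar (φ (y.1 j))‖ ≤ ∏ _j : Fin t, (2 : ℝ) :=
        Finset.prod_le_prod (fun j _ => norm_nonneg _) (fun j _ => LCF_norm_le p _)
      rw [Finset.prod_const, Finset.card_univ, Fintype.card_fin] at h1
      have h2 : (0 : ℝ) ≤ 2 ^ t * (1 - 1 / (p : ℝ) ^ 2) ^ s := by positivity
      linarith
    · rw [if_neg hy, zero_add]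
      have hy1 : y.1 ≠ 0 := fun h0 => hy (Subtype.ext h0)
      have h1 := h y.1 y.2 hy1
      have h2 : ∏ j : Fin t, ‖1 + ZMod.stdAddChar (φ (y.1 j))‖ ≤
          ∏ j : Fin t, (2 * (if φ (y.1 j) ≠ 0 then (1 - 1 / (p : ℝ) ^ 2) else 1)) := by
        apply Finset.prod_le_prod (fun j _ => norm_nonneg _)
        intro j _
        by_cases hj : φ (y.1 j) ≠ 0
        · rw [if_pos hj]
          exact LCF_norm p _ hj
        · rw [if_neg hj, mul_one]
          exact LCF_norm_le p _
      refine h2.trans ?_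
      rw [Finset.prod_mul_distrib, Finset.prod_const, Finset.card_univ, Fintype.card_fin,
        Finset.prod_ite, Finset.prod_const, Finset.prod_const_one, mul_one]
      apply mul_le_mul_of_nonneg_left _ (by positivity)
      apply pow_le_pow_of_le_one hx0 hx1
      have h3 : Set.ncard {j | φ (y.1 j) ≠ 0} =
          (Finset.univ.filter fun j => φ (y.1 j) ≠ 0).card := by
        rw [← Set.ncard_coe_finset]
        congr 1
        ext j
        simp
      rw [h3] at h1
      exact h1.le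
  have hfin : ((Set.ncard {b : Fin t → Bool | ∀ u ∈ E, dotb b u = 0} : ℕ) : ℝ) *
      (Fintype.card E : ℝ) ≤
      2 ^ t + (Fintype.card E : ℝ) * (2 ^ t * (1 - 1 / (p : ℝ) ^ 2) ^ s) := by
    have h1 : ‖((Set.ncard {b : Fin t → Bool | ∀ u ∈ E, dotb b u = 0} : ℕ) : ℂ) *
      (Fintype.card E : ℂ)‖ = ((Set.ncard {b : Fin t → Bool | ∀ u ∈ E, dotb b u = 0} : ℕ) : ℝ) *
      (Fintype.card E : ℝ) := by
      rw [norm_mul, Complex.norm_natCast, Complex.norm_natCast]
    rw [← h1, hN]
    refine (norm_sum_le _ _).trans ?_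
    refine (Finset.sum_le_sum (fun y _ => hbound y)).trans ?_
    rw [Finset.sum_add_distrib, Finset.sum_ite_eq' Finset.univ (0 : E), if_pos (Finset.mem_univ _),
      Finset.sum_const, nsmul_eq_mul, Finset.card_univ]
  have hEp : (0 : ℝ) < (Fintype.card E : ℝ) := by
    rw [← Nat.card_eq_fintype_card]
    exact_mod_cast hEpos
  rw [← hcE]
  rw [← mul_le_mul_iff_of_pos_right hEp]
  refine hfin.trans (le_of_eq ?_)
  field_simp

/-- LCF. -/
theorem LCF (h0 : FIN_stmt) : LCF_stmt := by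
  intro t p s P E φ hp hab hφ h
  have hM := P.isMaximal
  have hfin : Finite (KP P) := (h0 P).1
  have : Fact p.Prime := ⟨hp⟩
  let _ : Field (KP P) := Ideal.Quotient.field P.asIdeal
  exact LCF_core (KP P) p t s E φ hφ h

end Pool.Agent.helper42.NS
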