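import Pool.Agent.helper42.NS.Spec
import Pool.Agent.helper30.NS.ODL
import Pool.Agent.helper79.NS.KIL
import Pool.Agent.helper90.NS.VTX
import Pool.Agent.helper44.NS.PBH
import Pool.Agent.helper46.NS.PTP
import Pool.Agent.helper36.NS.DT1
import Pool.Agent.helper24.NS.DT2
import Pool.Agent.helper77.NS.DT3
import Pool.Agent.helper89.NS.PTS
import Pool.Agent.helper49.NS.EXR
import Pool.Agent.helper16.NS.CRD
import Pool.Agent.helper8.NS.STP
import Pool.Agent.helper38.NS.CNT
import Pool.Agent.helper10.NS.GEN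
import Pool.Agent.helper22.NS.BOR
import Pool.Agent.helper39.NS.ADJ
import Pool.Agent.helper40.NS.MO2
import Pool.Agent.helper95.NS.MOM
import Pool.Agent.helper96.NS.ISO
import Pool.Agent.helper32.NS.DIV
import Pool.Agent.helper50.NS.UNI
import Pool.Agent.helper45.NS.ASY

set_option autoImplicit false

/-!
# The number of different spectra of graphs on n vertices: assembly
-/

namespace Pool.Agent.helper42.NS

theorem T_KIL : KIL_stmt := KIL ODL
theorem T_DT1 : DT1_stmt := DT1 PBH
theorem T_PTS : PTS_stmt := PTS PTP T_DT1 DT2 DT3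
theorem T_EXR : EXR_stmt := EXR T_KIL PTP
theorem T_CRD : CRD_stmt := CRD T_EXR T_PTS
theorem T_STP : STP_stmt := STP ODL VTX PTP T_CRD
theorem T_CNT : CNT_stmt := CNT T_STP
theorem T_GEN : GEN_stmt := GEN T_KIL PBH T_PTS T_EXR
theorem T_MO2 : MO2_stmt := MO2 ADJ

end Pool.Agent.helper42.NS
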