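import Pool.Agent.helper42.NS.Spec2
import Pool.Agent.helper89.NS.PTS

set_option autoImplicit false

/-!
# Row nos2:PTQ
-/

namespace Pool.Agent.helper42.NS

open Polynomial Matrix

/-- PTQ. -/
theorem PTQ (h1 : PTP_stmt) (h2 : DTP_stmt) (h3 : DT2_stmt) (h4 : DT3_stmt) : PTQ_stmt := by
  classical
  intro t k L q H B hq hG ht hbad2 s hs
  obtain ⟨l, c, hl, hodd⟩ := h2 t k q H B hq hG.2.2 hbad2
  have hsize := h3 t k L H B l c hG ht hl
  have hne : Matrix.det (Matrix.of fun a j => ((H ^ l a).mulVec (ind (B (c a)))) j) ≠ 0 := by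
    intro h0
    rw [h0] at hodd
    exact hodd (dvd_zero _)
  obtain ⟨D, hD⟩ : ∃ D : ℤ, D =
    Matrix.det (Matrix.of fun a j => ((H ^ l a).mulVec (ind (B (c a)))) j) := ⟨_, rfl⟩
  have h4' := fun (P : Pt) (hP : Bad P H B) => h4 t k H B l c P hG.2.2 hP hne
  rw [← hD] at hsize hne
  rw [← hD] at h4'
  have hDpos : D.natAbs ≠ 0 := Int.natAbs_ne_zero.2 hne
  have hsub : s ⊆ D.natAbs.primeFactors.biUnion (fun p => s.filter (fun P => Above p P)) := by
    intro P hP
    obtain ⟨p, hp, hpD, hpP⟩ := h4' P (hs P hP)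
    rw [Finset.mem_biUnion]
    exact ⟨p, Nat.mem_primeFactors.2 ⟨hp, hpD, hDpos⟩, Finset.mem_filter.2 ⟨hP, hpP⟩⟩
  have hcard1 : s.card ≤ D.natAbs.primeFactors.card * t := by
    refine (Finset.card_le_card hsub).trans ?_
    refine Finset.card_biUnion_le_card_mul _ _ _ ?_
    intro p hp
    apply h1 t H p (Nat.prime_of_mem_primeFactors hp) hG.2.2
    intro P hP
    rw [Finset.mem_filter] at hP
    exact ⟨hP.2, PTS_crk P H B (hs P hP.1)⟩
  have hom : D.natAbs.primeFactors.card ≤ L * (t ^ 2 + t) := by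
    have e1 : 2 ^ D.natAbs.primeFactors.card ≤ ∏ p ∈ D.natAbs.primeFactors, p := by
      rw [← Finset.prod_const]
      exact Finset.prod_le_prod' (fun p hp => (Nat.prime_of_mem_primeFactors hp).two_le)
    have e2 : ∏ p ∈ D.natAbs.primeFactors, p ≤ D.natAbs :=
      Nat.le_of_dvd (Nat.pos_of_ne_zero hDpos) (Nat.prod_primeFactors_dvd _)
    exact (Nat.pow_le_pow_iff_right (by norm_num : 1 < 2)).1 ((e1.trans e2).trans hsize)
  calc s.card ≤ D.natAbs.primeFactors.card * t := hcard1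
    _ ≤ (L * (t ^ 2 + t)) * t := Nat.mul_le_mul_right t hom
    _ = t * (L * (t ^ 2 + t)) := Nat.mul_comm _ _
    _ ≤ 2 ^ (4 * L + 1) := PTS_arith t L ht

end Pool.Agent.helper42.NS
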