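import Pool.Agent.helper42.NS.Spec2
import Pool.Agent.helper77.NS.FIN

set_option autoImplicit false

/-!
# Row nos2:R2A
-/

namespace Pool.Agent.helper42.NS

open Polynomial Matrix

section core

variable (p : ℕ) [Fact p.Prime] {K : Type} [Field K] [Algebra (ZMod p) K] (lam : K)
  {t : ℕ} (H : Matrix (Fin t) (Fin t) ℤ) (y : Fin t → K) (φ : K →+ ZMod p) (S : Finset (Fin t))

/-- The vectors `w_l`. -/
def R2A_w (l : ℕ) : Fin t → ZMod p := fun j => if j ∈ S then 0 else φ (lam ^ l * y j)

theorem R2A_int (z : ℤ) (x : K) : φ ((z : K) * x) = (z : ZMod p) * φ x := by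
  rw [← zsmul_eq_mul, map_zsmul, zsmul_eq_mul]

theorem R2A_rec (hy : y ∈ EigK K lam H) (l : ℕ) :
    R2A_w p lam y φ S (l + 1) = (zer p H S).mulVec (R2A_w p lam y φ S l) +
      ∑ s ∈ S, φ (lam ^ l * y s) • colS p H S s := by
  funext j
  rw [Pi.add_apply, Finset.sum_apply]
  have h1 : ∑ s ∈ S, (φ (lam ^ l * y s) • colS p H S s) j =
      ∑ k : Fin t, if k ∈ S then φ (lam ^ l * y k) * colS p H S k j else 0 := by
    rw [Finset.sum_ite_mem, Finset.univ_inter]
    rfl
  rw [h1]
  show R2A_w p lam y φ S (l + 1) j =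
    ∑ k, zer p H S j k * R2A_w p lam y φ S l k + _
  rw [← Finset.sum_add_distrib]
  unfold R2A_w
  by_cases hj : j ∈ S
  · rw [if_pos hj, Finset.sum_eq_zero]
    intro k _
    have h2 : zer p H S j k = 0 := by
      show (if j ∈ S ∨ k ∈ S then (0 : ZMod p) else (H j k : ZMod p)) = 0
      rw [if_pos (Or.inl hj)]
    have h3 : colS p H S k j = 0 := by
      show (if j ∈ S then (0 : ZMod p) else (H j k : ZMod p)) = 0
      rw [if_pos hj]
    rw [h2, h3, zero_mul, mul_zero, zero_add]
    by_cases hk : k ∈ S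
    · rw [if_pos hk]
    · rw [if_neg hk]
  · rw [if_neg hj]
    have h2 : lam ^ (l + 1) * y j = ∑ k, (H j k : K) * (lam ^ l * y k) := by
      rw [pow_succ, mul_assoc, ← mem_EigK.1 hy j, Finset.mul_sum]
      exact Finset.sum_congr rfl fun k _ => by ring
    rw [h2, map_sum]
    apply Finset.sum_congr rfl
    intro k _
    rw [R2A_int]
    have h3 : colS p H S k j = (H j k : ZMod p) := by
      show (if j ∈ S then (0 : ZMod p) else (H j k : ZMod p)) = _
      rw [if_neg hj]
    have h4 : zer p H S j k = if k ∈ S then 0 else (H j k : ZMod p) := by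
      show (if j ∈ S ∨ k ∈ S then (0 : ZMod p) else (H j k : ZMod p)) = _
      by_cases hk : k ∈ S
      · rw [if_pos hk, if_pos (Or.inr hk)]
      · rw [if_neg hk, if_neg (fun h => h.elim hj hk)]
    rw [h3, h4]
    by_cases hk : k ∈ S
    · rw [if_pos hk, if_pos hk, if_pos hk, zero_mul, zero_add, mul_comm]
    · rw [if_neg hk, if_neg hk, if_neg hk, add_zero]

theorem R2A_T (f : (ZMod p)[X]) (k n : ℕ) : (divX^[k] f).coeff n = f.coeff (n + k) := by
  induction k generalizing n with
  | zero => rfl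
  | succ k ih => rw [Function.iterate_succ_apply', coeff_divX, ih]; congr 1; omega

theorem R2A_tel (hy : y ∈ EigK K lam H) (h0 : ∀ j, j ∉ S → φ (y j) = 0) (f : (ZMod p)[X])
    (n : ℕ) :
    ∑ i ∈ Finset.range n, (Polynomial.aeval (zer p H S) (divX^[i + 1] f)).mulVec
      (∑ s ∈ S, φ (lam ^ i * y s) • colS p H S s) =
    (Polynomial.aeval (zer p H S) (divX^[n] f)).mulVec (R2A_w p lam y φ S n) +
      ∑ i ∈ Finset.range n, f.coeff i • R2A_w p lam y φ S i := by
  induction n with
  | zero =>
    have h1 : R2A_w p lam y φ S 0 = 0 := by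
      funext j
      unfold R2A_w
      by_cases hj : j ∈ S
      · rw [if_pos hj]; rfl
      · rw [if_neg hj, pow_zero, one_mul, h0 j hj]; rfl
    rw [h1, Matrix.mulVec_zero]
    simp
  | succ n ih =>
    rw [Finset.sum_range_succ, ih, Finset.sum_range_succ]
    have h1 : ∑ s ∈ S, φ (lam ^ n * y s) • colS p H S s =
        R2A_w p lam y φ S (n + 1) - (zer p H S).mulVec (R2A_w p lam y φ S n) := by
      rw [R2A_rec p lam H y φ S hy n]
      abel
    have h2 : divX^[n] f = divX^[n + 1] f * X + C (f.coeff n) := by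
      have h3 := divX_mul_X_add (divX^[n] f)
      rw [R2A_T, zero_add, ← Function.iterate_succ_apply' divX n f] at h3
      exact h3.symm
    have h4 : (Polynomial.aeval (zer p H S) (divX^[n] f)).mulVec (R2A_w p lam y φ S n) =
        (Polynomial.aeval (zer p H S) (divX^[n + 1] f)).mulVec
          ((zer p H S).mulVec (R2A_w p lam y φ S n)) + f.coeff n • R2A_w p lam y φ S n := by
      conv_lhs => rw [h2]
      rw [map_add, map_mul, aeval_X, aeval_C, Matrix.add_mulVec, ← Matrix.mulVec_mulVec,
        Algebra.algebraMap_eq_smul_one, Matrix.smul_mulVec, Matrix.one_mulVec]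
    rw [h1, Matrix.mulVec_sub, h4]
    abel

theorem R2A_eta (f : (ZMod p)[X]) (d : ℕ) (hfd : f.coeff d = 1)
    (hfh : ∀ k, d < k → f.coeff k = 0) (η : ℕ → ZMod p)
    (h : ∀ n, ∑ i ∈ Finset.range (d + 1), η i * f.coeff (n + (i + 1)) = 0) :
    ∀ i, i < d → η i = 0 := by
  intro i
  induction i using Nat.strong_induction_on with
  | _ i ih =>
    intro hi
    have h1 := h (d - 1 - i)
    rw [Finset.sum_eq_single i] at h1
    · rw [show d - 1 - i + (i + 1) = d by omega, hfd, mul_one] at h1
      exact h1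
    · intro k _ hk
      rcases lt_or_gt_of_ne hk with h2 | h2
      · rw [ih k h2 (by omega), zero_mul]
      · rw [hfh _ (by omega), mul_zero]
    · intro h2
      exact absurd (Finset.mem_range.2 (by omega)) h2

theorem R2A_core [FiniteDimensional (ZMod p) K]
    (hsurj : ∀ c : K, ∃ g : (ZMod p)[X], Polynomial.aeval lam g = c) (D : ℕ)
    (hD : Module.finrank (ZMod p) K ≤ D) (hφ : φ ≠ 0) (hy : y ∈ EigK K lam H) (hy0 : y ≠ 0)
    (h0 : ∀ j, j ∉ S → φ (y j) = 0) :
    ∃ g : Fin t → (ZMod p)[X], (∃ s ∈ S, g s ≠ 0) ∧ (∀ s, (g s).degree < D) ∧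
      Rel p H S g := by
  obtain ⟨f, hf⟩ : ∃ f : (ZMod p)[X], f = minpoly (ZMod p) lam := ⟨_, rfl⟩
  have hmonic : f.Monic := by
    rw [hf]; exact minpoly.monic (Algebra.IsIntegral.isIntegral lam)
  have hroot : Polynomial.aeval lam f = 0 := by rw [hf]; exact minpoly.aeval _ _
  obtain ⟨d, hd⟩ : ∃ d : ℕ, d = f.natDegree := ⟨_, rfl⟩
  have hdD : d ≤ D := by
    rw [hd, hf]
    exact (minpoly.natDegree_le lam).trans hD
  have hfd : f.coeff d = 1 := by rw [hd]; exact hmonic
  have hfh : ∀ k, d < k → f.coeff k = 0 := fun k hk => by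
    rw [hd] at hk
    exact coeff_eq_zero_of_natDegree_lt hk
  have hlin : ∀ (c : ZMod p) (x : K), φ (c • x) = c * φ x := by
    intro c x
    rw [ZMod.map_smul φ c x, smul_eq_mul]
  -- vanishing of φ on all powers forces zero
  have hvan : ∀ z : K, (∀ i, i < d → φ (lam ^ i * z) = 0) → z = 0 := by
    intro z hz
    by_contra hz0
    apply hφ
    ext c
    obtain ⟨g, hg⟩ := hsurj (c * z⁻¹)
    have h1 : Polynomial.aeval lam (g %ₘ f) = c * z⁻¹ := by
      rw [← hg]
      exact aeval_modByMonic_eq_self_of_root hroot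
    have hdpos : 0 < d := by
      rw [hd, hf]
      exact minpoly.natDegree_pos (Algebra.IsIntegral.isIntegral lam)
    have hf1 : f ≠ 1 := by
      intro h1
      rw [h1] at hd
      rw [natDegree_one] at hd
      omega
    have h2 : (g %ₘ f).natDegree < d := by
      rw [hd]
      exact natDegree_modByMonic_lt _ hmonic hf1
    rw [aeval_eq_sum_range' h2] at h1
    have h3 : c = ∑ i ∈ Finset.range d, (g %ₘ f).coeff i • (lam ^ i * z) := by
      have h4 : c = (c * z⁻¹) * z := by rw [mul_assoc, inv_mul_cancel₀ hz0, mul_one]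
      rw [h4, ← h1, Finset.sum_mul]
      apply Finset.sum_congr rfl
      intro i _
      rw [smul_mul_assoc]
    rw [h3, map_sum, AddMonoidHom.zero_apply]
    apply Finset.sum_eq_zero
    intro i hi
    rw [hlin, hz i (Finset.mem_range.1 hi), mul_zero]
  obtain ⟨g, hg⟩ : ∃ g : Fin t → (ZMod p)[X], g = fun s =>
    ∑ i ∈ Finset.range (d + 1), C (φ (lam ^ i * y s)) * divX^[i + 1] f := ⟨_, rfl⟩
  have hgc : ∀ s n, (g s).coeff n =
      ∑ i ∈ Finset.range (d + 1), φ (lam ^ i * y s) * f.coeff (n + (i + 1)) := by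
    intro s n
    rw [hg]
    show (∑ i ∈ Finset.range (d + 1), C (φ (lam ^ i * y s)) * divX^[i + 1] f).coeff n = _
    rw [finsetSum_coeff]
    apply Finset.sum_congr rfl
    intro i _
    rw [coeff_C_mul, R2A_T]
  refine ⟨g, ?_, ?_, ?_⟩
  · by_contra hcon
    push Not at hcon
    have hyS : ∀ s ∈ S, y s = 0 := by
      intro s hs
      apply hvan
      apply R2A_eta p f d hfd hfh (fun i => φ (lam ^ i * y s))
      intro n
      have h1 := hgc s n
      rw [hcon s hs, coeff_zero] at h1
      exact h1.symm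
    have hw : ∀ l, R2A_w p lam y φ S l = 0 := by
      intro l
      induction l with
      | zero =>
        funext j
        unfold R2A_w
        by_cases hj : j ∈ S
        · rw [if_pos hj]; rfl
        · rw [if_neg hj, pow_zero, one_mul, h0 j hj]; rfl
      | succ l ih =>
        rw [R2A_rec p lam H y φ S hy l, ih, Matrix.mulVec_zero, zero_add]
        apply Finset.sum_eq_zero
        intro s hs
        rw [hyS s hs, mul_zero, map_zero, zero_smul]
    apply hy0
    funext j
    by_cases hj : j ∈ S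
    · exact hyS j hj
    · apply hvan
      intro i _
      have h1 := congrFun (hw i) j
      unfold R2A_w at h1
      rw [if_neg hj] at h1
      exact h1
  · intro s
    rw [degree_lt_iff_coeff_zero]
    intro n hn
    rw [hgc]
    apply Finset.sum_eq_zero
    intro i _
    rw [hfh _ (by omega), mul_zero]
  · unfold Rel
    have h1 := R2A_tel p lam H y φ S hy h0 f (d + 1)
    have h2 : divX^[d + 1] f = 0 := by
      ext n
      rw [R2A_T, hfh _ (by omega), coeff_zero]
    rw [h2, map_zero, Matrix.zero_mulVec, zero_add] at h1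
    have h3 : ∑ i ∈ Finset.range (d + 1), f.coeff i • R2A_w p lam y φ S i = 0 := by
      funext j
      rw [Finset.sum_apply, Pi.zero_apply]
      by_cases hj : j ∈ S
      · apply Finset.sum_eq_zero
        intro i _
        rw [Pi.smul_apply]
        unfold R2A_w
        rw [if_pos hj, smul_zero]
      · have h4 : ∑ i ∈ Finset.range (d + 1), (f.coeff i • R2A_w p lam y φ S i) j =
            φ (Polynomial.aeval lam f * y j) := by
          rw [aeval_eq_sum_range' (n := d + 1) (by omega), Finset.sum_mul, map_sum]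
          apply Finset.sum_congr rfl
          intro i _
          rw [smul_mul_assoc, hlin, Pi.smul_apply, smul_eq_mul]
          unfold R2A_w
          rw [if_neg hj]
        rw [h4, hroot, zero_mul, map_zero]
    rw [h3] at h1
    rw [← h1]
    have h5 : ∀ i, (Polynomial.aeval (zer p H S) (divX^[i + 1] f)).mulVec
        (∑ s ∈ S, φ (lam ^ i * y s) • colS p H S s) =
        ∑ s ∈ S, φ (lam ^ i * y s) •
          (Polynomial.aeval (zer p H S) (divX^[i + 1] f)).mulVec (colS p H S s) := by
      intro i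
      rw [Matrix.mulVec_sum]
      apply Finset.sum_congr rfl
      intro s _
      rw [Matrix.mulVec_smul]
    rw [Finset.sum_congr rfl (fun i _ => h5 i), Finset.sum_comm]
    apply Finset.sum_congr rfl
    intro s _
    rw [hg]
    show (Polynomial.aeval (zer p H S)
      (∑ i ∈ Finset.range (d + 1), C (φ (lam ^ i * y s)) * divX^[i + 1] f)).mulVec _ = _
    rw [map_sum, Matrix.sum_mulVec]
    apply Finset.sum_congr rfl
    intro i _
    rw [map_mul, aeval_C, Algebra.algebraMap_eq_smul_one, smul_mul_assoc, one_mul,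
      Matrix.smul_mulVec]

end core

/-- R2A. -/
theorem R2A (hF : FIN_stmt) : R2A_stmt := by
  intro t p D P H y φ S hp hab hq hφ hy hy0 h0
  have hM := P.isMaximal
  have : Fact p.Prime := ⟨hp⟩
  let fld : Field (KP P) := Ideal.Quotient.field P.asIdeal
  have hz : ((p : ℕ) : KP P) = 0 := FIN_zero P p hab
  have hchar : CharP (KP P) p := by
    obtain ⟨q, hq⟩ := CharP.exists (KP P)
    have h1 : q ∣ p := (CharP.cast_eq_zero_iff (KP P) q p).1 hz
    rcases (Nat.dvd_prime hp).1 h1 with h | h
    · rw [h] at hq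
      exact absurd rfl (@CharP.char_ne_one (KP P) _ _ 1 hq)
    · rwa [h] at hq
  let alg : Algebra (ZMod p) (KP P) := ZMod.algebra (KP P) p
  have hfin : Finite (KP P) := (hF P).1
  have hfd : FiniteDimensional (ZMod p) (KP P) := Module.Finite.of_finite
  have hD : Module.finrank (ZMod p) (KP P) ≤ D := by
    have h2 : Nat.card (KP P) = p ^ Module.finrank (ZMod p) (KP P) := by
      rw [Module.natCard_eq_pow_finrank (K := ZMod p) (V := KP P), Nat.card_zmod]
    have h3 : Nat.card (KP P) ≤ p ^ D := hq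
    rw [h2] at h3
    exact (Nat.pow_le_pow_iff_right hp.one_lt).1 h3
  refine R2A_core p (lamP P) H y φ S ?_ D hD hφ hy hy0 h0
  intro c
  obtain ⟨g', rfl⟩ := Ideal.Quotient.mk_surjective c
  refine ⟨g'.map (Int.castRingHom (ZMod p)), ?_⟩
  have h5 : Polynomial.aeval (lamP P) (g'.map (Int.castRingHom (ZMod p))) =
      Polynomial.aeval (lamP P) g' := by
    have h6 := Polynomial.aeval_map_algebraMap (ZMod p) (lamP P) g'
    exact h6
  rw [h5]
  have h4 : (Ideal.Quotient.mk P.asIdeal) =
      (Polynomial.aeval (lamP P) : ℤ[X] →ₐ[ℤ] KP P).toRingHom := by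
    apply Polynomial.ringHom_ext
    · intro a
      simp
    · simp [lamP]
  rw [h4]
  rfl

end Pool.Agent.helper42.NS
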