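import Pool.Agent.helper42.NS.Spec2
import Pool.Agent.helper77.NS.FIN

set_option autoImplicit false

/-!
# Row nos2:R2B
-/

namespace Pool.Agent.helper42.NS

open Polynomial Matrix

theorem R2B_comp {F V : Type} [Field F] [AddCommGroup V] [Module F V] [FiniteDimensional F V]
    (f g : V →ₗ[F] V) : Module.finrank F (LinearMap.ker (f.comp g)) ≤
      Module.finrank F (LinearMap.ker f) + Module.finrank F (LinearMap.ker g) := by
  let L : LinearMap.ker (f.comp g) →ₗ[F] LinearMap.ker f :=
    { toFun := fun u => ⟨g u.1, u.2⟩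
      map_add' := fun u v => Subtype.ext (map_add g u.1 v.1)
      map_smul' := fun c u => Subtype.ext (map_smul g c u.1) }
  have h1 := LinearMap.finrank_range_add_finrank_ker L
  have h2 : Module.finrank F (LinearMap.range L) ≤ Module.finrank F (LinearMap.ker f) :=
    Submodule.finrank_le _
  let ψ : LinearMap.ker L →ₗ[F] LinearMap.ker g :=
    { toFun := fun u => ⟨u.1.1, congrArg Subtype.val u.2⟩
      map_add' := fun _ _ => rfl
      map_smul' := fun _ _ => rfl }
  have hψ : Function.Injective ψ := by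
    intro u v huv
    have h8 : u.1.1 = v.1.1 := congrArg (fun w : LinearMap.ker g => (w : V)) huv
    exact Subtype.ext (Subtype.ext h8)
  have h3 := LinearMap.finrank_le_finrank_of_injective hψ
  omega

theorem R2B_aeval {F K : Type} [Field F] [Field K] [Algebra F K] {t : ℕ}
    (A : Matrix (Fin t) (Fin t) F) (f : F[X]) :
    Polynomial.aeval (A.map (algebraMap F K)) (f.map (algebraMap F K)) =
      (Polynomial.aeval A f).map (algebraMap F K) := by
  rw [Polynomial.aeval_map_algebraMap]
  have h := Polynomial.aeval_algHom_apply ((Algebra.ofId F K).mapMatrix (m := Fin t)) A f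
  exact h

theorem R2B_mulVec {F K : Type} [Field F] [Field K] [Algebra F K] {t : ℕ}
    (M : Matrix (Fin t) (Fin t) F) (w : Fin t → F) :
    (M.map (algebraMap F K)).mulVec (fun j => algebraMap F K (w j)) =
      fun i => algebraMap F K (M.mulVec w i) := by
  funext i
  unfold Matrix.mulVec dotProduct
  rw [map_sum]
  apply Finset.sum_congr rfl
  intro j _
  rw [map_mul]
  rfl

theorem R2B_pow {F K : Type} [Field F] [Field K] [Algebra F K] {t : ℕ}
    (A : Matrix (Fin t) (Fin t) F) (i : ℕ) :
    (A.map (algebraMap F K)) ^ i = (A ^ i).map (algebraMap F K) := by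
  have h := map_pow ((algebraMap F K).mapMatrix (m := Fin t)) A i
  exact h.symm

theorem R2B_inj {F K : Type} [Field F] [Field K] [Algebra F K] {t : ℕ}
    (A : Matrix (Fin t) (Fin t) F) (f : F[X]) (hf : Irreducible f) (α : K)
    (v : Fin t → F) (hv : (Polynomial.aeval A f).mulVec v = 0)
    (hT : (Polynomial.aeval (A.map (algebraMap F K))
      ((f.map (algebraMap F K)) /ₘ (X - C α))).mulVec (fun j => algebraMap F K (v j)) = 0) :
    v = 0 := by
  obtain ⟨q, hq⟩ : ∃ q : K[X], q = (f.map (algebraMap F K)) /ₘ (X - C α) := ⟨_, rfl⟩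
  rw [← hq] at hT
  have hfpos : 0 < f.natDegree := hf.natDegree_pos
  have hdeg : q.natDegree = f.natDegree - 1 := by
    rw [hq, natDegree_divByMonic _ (monic_X_sub_C α), natDegree_X_sub_C,
      natDegree_map_eq_of_injective (algebraMap F K).injective]
  have hf0 : f.map (algebraMap F K) ≠ 0 :=
    (Polynomial.map_ne_zero_iff (algebraMap F K).injective).2 hf.ne_zero
  have hq0 : q ≠ 0 := by
    intro h0
    rw [hq, divByMonic_eq_zero_iff (monic_X_sub_C α), degree_X_sub_C,
      degree_map_eq_of_injective (algebraMap F K).injective] at h0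
    have h1 : f.natDegree = 0 := by
      by_contra hne
      have h2 : (1 : WithBot ℕ) ≤ f.degree := by
        rw [degree_eq_natDegree hf.ne_zero]
        exact_mod_cast Nat.one_le_iff_ne_zero.2 hne
      exact absurd h0 (not_lt.2 h2)
    omega
  have hc : q.leadingCoeff ≠ 0 := leadingCoeff_ne_zero.2 hq0
  obtain ⟨ℓ, hℓ⟩ : ∃ ℓ : K →ₗ[F] F, ℓ q.leadingCoeff ≠ 0 := by
    by_contra hcon
    push Not at hcon
    let b := Module.Basis.ofVectorSpace F K
    exact hc (b.forall_coord_eq_zero_iff.1 (fun i => hcon (b.coord i)))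
  obtain ⟨r, hr⟩ : ∃ r : F[X], r = ∑ i ∈ Finset.range (q.natDegree + 1),
    monomial i (ℓ (q.coeff i)) := ⟨_, rfl⟩
  have hrc : ∀ k, r.coeff k = if k ≤ q.natDegree then ℓ (q.coeff k) else 0 := by
    intro k
    rw [hr, finsetSum_coeff]
    by_cases hk : k ≤ q.natDegree
    · rw [if_pos hk, Finset.sum_eq_single k]
      · rw [coeff_monomial, if_pos rfl]
      · intro b _ hb
        rw [coeff_monomial, if_neg hb]
      · intro h
        exact absurd (Finset.mem_range.2 (by omega)) h
    · rw [if_neg hk, Finset.sum_eq_zero]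
      intro b hb
      rw [coeff_monomial, if_neg]
      intro hbk
      rw [Finset.mem_range] at hb
      omega
  have hr0 : r ≠ 0 := by
    intro h0
    have h1 := hrc q.natDegree
    rw [h0, if_pos le_rfl, coeff_zero] at h1
    exact hℓ h1.symm
  have hrd : r.natDegree ≤ q.natDegree := by
    rw [natDegree_le_iff_coeff_eq_zero]
    intro k hk
    rw [hrc, if_neg (by omega)]
  have hrv : (Polynomial.aeval A r).mulVec v = 0 := by
    funext j
    have h1 : (Polynomial.aeval A r).mulVec v j =
        ∑ i ∈ Finset.range (q.natDegree + 1), ℓ (q.coeff i) * ((A ^ i).mulVec v j) := by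
      rw [hr, map_sum, Matrix.sum_mulVec, Finset.sum_apply]
      apply Finset.sum_congr rfl
      intro i _
      rw [aeval_monomial, ← Algebra.smul_def, Matrix.smul_mulVec, Pi.smul_apply, smul_eq_mul]
    have h2 : (Polynomial.aeval (A.map (algebraMap F K)) q).mulVec
        (fun j => algebraMap F K (v j)) j =
        ∑ i ∈ Finset.range (q.natDegree + 1),
          q.coeff i * algebraMap F K ((A ^ i).mulVec v j) := by
      rw [aeval_eq_sum_range, Matrix.sum_mulVec, Finset.sum_apply]
      apply Finset.sum_congr rfl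
      intro i _
      rw [Matrix.smul_mulVec, Pi.smul_apply, smul_eq_mul, R2B_pow, R2B_mulVec]
    rw [hT] at h2
    have h3 := congrArg ℓ h2
    rw [Pi.zero_apply, map_zero, map_sum] at h3
    rw [h1, Pi.zero_apply, h3]
    apply Finset.sum_congr rfl
    intro i _
    rw [mul_comm (q.coeff i), ← Algebra.smul_def, map_smul, smul_eq_mul, mul_comm]
  have hcop : IsCoprime f r := by
    rw [hf.coprime_iff_not_dvd]
    intro hdvd
    have := natDegree_le_of_dvd hdvd hr0
    omega
  obtain ⟨a, b, hab⟩ := hcop
  have h4 : (Polynomial.aeval A (a * f + b * r)).mulVec v = 0 := by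
    rw [map_add, map_mul, map_mul, Matrix.add_mulVec, ← Matrix.mulVec_mulVec,
      ← Matrix.mulVec_mulVec, hv, hrv, Matrix.mulVec_zero, Matrix.mulVec_zero, add_zero]
  rw [hab, map_one, Matrix.one_mulVec] at h4
  exact h4

theorem R2B_irr (p : ℕ) [Fact p.Prime] (K : Type) [Field K] [Finite K] [Algebra (ZMod p) K]
    (α : K) (f : (ZMod p)[X]) (hf : Irreducible f) (hα : Polynomial.aeval α f = 0) (t : ℕ)
    (A : Matrix (Fin t) (Fin t) ℤ) :
    Module.finrank (ZMod p) (LinearMap.ker (Matrix.mulVecLin
      (Polynomial.aeval (A.map (fun z : ℤ => (z : ZMod p))) f))) ≤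
      Module.finrank (ZMod p) K * Module.finrank K (EigK K α A) := by
  classical
  obtain ⟨A', hA'⟩ : ∃ A' : Matrix (Fin t) (Fin t) (ZMod p),
    A' = A.map (fun z : ℤ => (z : ZMod p)) := ⟨_, rfl⟩
  rw [← hA']
  have hAK : A'.map (algebraMap (ZMod p) K) = A.map (fun z : ℤ => (z : K)) := by
    rw [hA', Matrix.map_map]
    ext i j
    show algebraMap (ZMod p) K ((A i j : ℤ) : ZMod p) = ((A i j : ℤ) : K)
    rw [map_intCast]
  obtain ⟨q, hq⟩ : ∃ q : K[X], q = (f.map (algebraMap (ZMod p) K)) /ₘ (X - C α) := ⟨_, rfl⟩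
  have hroot : IsRoot (f.map (algebraMap (ZMod p) K)) α := by
    rw [IsRoot.def, eval_map_algebraMap]
    exact hα
  have hmul : (X - C α) * q = f.map (algebraMap (ZMod p) K) := by
    rw [hq]
    exact mul_divByMonic_eq_iff_isRoot.2 hroot
  let T : (LinearMap.ker (Matrix.mulVecLin (Polynomial.aeval A' f))) → (Fin t → K) :=
    fun w => (Polynomial.aeval (A'.map (algebraMap (ZMod p) K)) q).mulVec
      (fun j => algebraMap (ZMod p) K (w.1 j))
  have hTmem : ∀ w, T w ∈ EigK K α A := by
    intro w
    have hw : (Polynomial.aeval A' f).mulVec w.1 = 0 := w.2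
    have h1 : (Polynomial.aeval (A'.map (algebraMap (ZMod p) K)) ((X - C α) * q)).mulVec
        (fun j => algebraMap (ZMod p) K (w.1 j)) = 0 := by
      rw [hmul, R2B_aeval, R2B_mulVec, hw]
      funext i
      simp
    rw [map_mul, ← Matrix.mulVec_mulVec, map_sub, aeval_X, aeval_C, Matrix.sub_mulVec,
      sub_eq_zero] at h1
    show (A.map (fun z : ℤ => (z : K))).mulVec (T w) = α • T w
    rw [← hAK]
    refine h1.trans ?_
    rw [Algebra.algebraMap_eq_smul_one, Matrix.smul_mulVec, Matrix.one_mulVec]
  let T' : (LinearMap.ker (Matrix.mulVecLin (Polynomial.aeval A' f))) → EigK K α A :=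
    fun w => ⟨T w, hTmem w⟩
  have hinj : Function.Injective T' := by
    intro w w' hww
    have h1 : T w = T w' := congrArg Subtype.val hww
    have h2 : w.1 - w'.1 = 0 := by
      apply R2B_inj A' f hf α
      · have hw : (Polynomial.aeval A' f).mulVec w.1 = 0 := w.2
        have hw' : (Polynomial.aeval A' f).mulVec w'.1 = 0 := w'.2
        rw [Matrix.mulVec_sub, hw, hw', sub_zero]
      · rw [← hq]
        have h3 : (fun j => algebraMap (ZMod p) K ((w.1 - w'.1) j)) =
            (fun j => algebraMap (ZMod p) K (w.1 j)) -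
              (fun j => algebraMap (ZMod p) K (w'.1 j)) := by
          funext j
          rw [Pi.sub_apply, Pi.sub_apply, map_sub]
        rw [h3, Matrix.mulVec_sub]
        exact sub_eq_zero.2 h1
    exact Subtype.ext (sub_eq_zero.1 h2)
  have hcard := Nat.card_le_card_of_injective T' hinj
  have c1 : Nat.card (LinearMap.ker (Matrix.mulVecLin (Polynomial.aeval A' f))) =
      p ^ Module.finrank (ZMod p)
        (LinearMap.ker (Matrix.mulVecLin (Polynomial.aeval A' f))) := by
    rw [Module.natCard_eq_pow_finrank (K := ZMod p), Nat.card_zmod]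
  have c2 : Nat.card (EigK K α A) =
      p ^ (Module.finrank (ZMod p) K * Module.finrank K (EigK K α A)) := by
    rw [Module.natCard_eq_pow_finrank (K := K),
      Module.natCard_eq_pow_finrank (K := ZMod p) (V := K), Nat.card_zmod, ← pow_mul]
  rw [c1, c2] at hcard
  exact (Nat.pow_le_pow_iff_right (Fact.out : p.Prime).one_lt).1 hcard

theorem R2B_pt (p : ℕ) [Fact p.Prime] (f : (ZMod p)[X]) (hf : Irreducible f) (t C₀ : ℕ)
    (A : Matrix (Fin t) (Fin t) ℤ) (hC : ∀ P : Pt, Above p P → crk P A ≤ C₀) :
    Module.finrank (ZMod p) (LinearMap.ker (Matrix.mulVecLin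
      (Polynomial.aeval (A.map (fun z : ℤ => (z : ZMod p))) f))) ≤ f.natDegree * C₀ := by
  classical
  have hfact : Fact (Irreducible f) := ⟨hf⟩
  let θ : ℤ[X] →+* AdjoinRoot f :=
    (AdjoinRoot.mk f).comp (Polynomial.mapRingHom (Int.castRingHom (ZMod p)))
  have hsurj : Function.Surjective θ := by
    intro x
    obtain ⟨g, rfl⟩ := AdjoinRoot.mk_surjective x
    obtain ⟨g', hg'⟩ := Polynomial.map_surjective (Int.castRingHom (ZMod p))
      (ZMod.ringHom_surjective _) g
    refine ⟨g', ?_⟩
    show AdjoinRoot.mk f (Polynomial.map (Int.castRingHom (ZMod p)) g') = _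
    rw [hg']
  have hmax : (RingHom.ker θ).IsMaximal := RingHom.ker_isMaximal_of_surjective θ hsurj
  let P : Pt := ⟨RingHom.ker θ, hmax⟩
  have hab : Above p P := by
    show ((p : ℕ) : ℤ[X]) ∈ RingHom.ker θ
    rw [RingHom.mem_ker, map_natCast]
    have h1 : ((p : ℕ) : AdjoinRoot f) = algebraMap (ZMod p) (AdjoinRoot f) ((p : ℕ) : ZMod p) := by
      rw [map_natCast]
    rw [h1, ZMod.natCast_self, map_zero]
  have hM := P.isMaximal
  let e : KP P ≃+* AdjoinRoot f := RingHom.quotientKerEquivOfSurjective hsurj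
  let fld : Field (KP P) := Ideal.Quotient.field P.asIdeal
  have hz : ((p : ℕ) : KP P) = 0 := FIN_zero P p hab
  have hchar : CharP (KP P) p := by
    obtain ⟨q, hq⟩ := CharP.exists (KP P)
    have h1 : q ∣ p := (CharP.cast_eq_zero_iff (KP P) q p).1 hz
    rcases (Nat.dvd_prime (Fact.out : p.Prime)).1 h1 with h | h
    · rw [h] at hq
      exact absurd rfl (@CharP.char_ne_one (KP P) _ _ 1 hq)
    · rwa [h] at hq
  let alg : Algebra (ZMod p) (KP P) := ZMod.algebra (KP P) p
  have hfin : Finite (KP P) := by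
    have h1 : Finite (AdjoinRoot f) := by
      have : Module.Finite (ZMod p) (AdjoinRoot f) :=
        (AdjoinRoot.powerBasis hf.ne_zero).finite
      exact Module.finite_of_finite (ZMod p)
    exact Finite.of_equiv _ e.symm.toEquiv
  have hfr : Module.finrank (ZMod p) (KP P) = f.natDegree := by
    have h1 : Nat.card (KP P) = Nat.card (AdjoinRoot f) := Nat.card_congr e.toEquiv
    have h2 : Nat.card (KP P) = p ^ Module.finrank (ZMod p) (KP P) := by
      rw [Module.natCard_eq_pow_finrank (K := ZMod p) (V := KP P), Nat.card_zmod]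
    have h3 : Nat.card (AdjoinRoot f) = p ^ f.natDegree := by
      have : Module.Finite (ZMod p) (AdjoinRoot f) :=
        (AdjoinRoot.powerBasis hf.ne_zero).finite
      rw [Module.natCard_eq_pow_finrank (K := ZMod p) (V := AdjoinRoot f), Nat.card_zmod,
        (AdjoinRoot.powerBasis hf.ne_zero).finrank, AdjoinRoot.powerBasis_dim]
    rw [h2, h3] at h1
    exact Nat.pow_right_injective (Fact.out : p.Prime).two_le h1
  have hα : Polynomial.aeval (lamP P) f = 0 := by
    obtain ⟨g', hg'⟩ := Polynomial.map_surjective (Int.castRingHom (ZMod p))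
      (ZMod.ringHom_surjective _) f
    have h1 : g' ∈ P.asIdeal := by
      show g' ∈ RingHom.ker θ
      rw [RingHom.mem_ker]
      show AdjoinRoot.mk f (Polynomial.map (Int.castRingHom (ZMod p)) g') = 0
      rw [hg', AdjoinRoot.mk_self]
    have h2 : Polynomial.aeval (lamP P) g' = 0 := by
      have h3 : Polynomial.aeval (lamP P) g' = Ideal.Quotient.mk P.asIdeal g' := by
        have h4 : (Ideal.Quotient.mk P.asIdeal) =
            (Polynomial.aeval (lamP P) : ℤ[X] →ₐ[ℤ] KP P).toRingHom := by
          apply Polynomial.ringHom_ext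
          · intro a
            simp
          · simp [lamP]
        rw [h4]
        rfl
      rw [h3]
      exact Ideal.Quotient.eq_zero_iff_mem.2 h1
    have h5 : Polynomial.aeval (lamP P) (g'.map (Int.castRingHom (ZMod p))) =
        Polynomial.aeval (lamP P) g' := by
      have h6 := Polynomial.aeval_map_algebraMap (ZMod p) (lamP P) g'
      exact h6
    rw [hg'] at h5
    rw [h5, h2]
  have h1 := R2B_irr p (KP P) (lamP P) f hf hα t A
  rw [hfr] at h1
  exact h1.trans (Nat.mul_le_mul_left _ (hC P hab))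

/-- R2B. -/
theorem R2B (_ : FIN_stmt) : R2B_stmt := by
  intro t p C₀ A g _ hC hg
  revert hg
  refine UniqueFactorizationMonoid.induction_on_prime g ?_ ?_ ?_
  · intro h0
    exact absurd rfl h0
  · intro x hx _
    have h1 : LinearMap.ker (Matrix.mulVecLin
        (Polynomial.aeval (A.map (fun z : ℤ => (z : ZMod p))) x)) = ⊥ := by
      rw [eq_bot_iff]
      intro w hw
      have hw' : (Polynomial.aeval (A.map (fun z : ℤ => (z : ZMod p))) x).mulVec w = 0 := hw
      obtain ⟨y, hy⟩ := hx.exists_left_inv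
      have h2 : (Polynomial.aeval (A.map (fun z : ℤ => (z : ZMod p))) (y * x)).mulVec w = 0 := by
        rw [map_mul, ← Matrix.mulVec_mulVec, hw', Matrix.mulVec_zero]
      rw [hy, map_one, Matrix.one_mulVec] at h2
      rw [Submodule.mem_bot]
      exact h2
    rw [h1, finrank_bot]
    exact Nat.zero_le _
  · intro a q ha hq ih hqa
    have h1 : Matrix.mulVecLin
        (Polynomial.aeval (A.map (fun z : ℤ => (z : ZMod p))) (q * a)) =
        (Matrix.mulVecLin (Polynomial.aeval (A.map (fun z : ℤ => (z : ZMod p))) q)).comp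
          (Matrix.mulVecLin (Polynomial.aeval (A.map (fun z : ℤ => (z : ZMod p))) a)) := by
      rw [map_mul, Matrix.mulVecLin_mul]
    rw [h1, natDegree_mul hq.ne_zero ha, add_mul]
    refine (R2B_comp _ _).trans ?_
    exact Nat.add_le_add (R2B_pt p q hq.irreducible t C₀ A hC) (ih ha)

end Pool.Agent.helper42.NS
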