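import Pool.Agent.helper42.NS.Spec2

set_option autoImplicit false

/-!
# Row nos2:R2D
-/

namespace Pool.Agent.helper42.NS

open Polynomial Matrix

theorem R2D_field (K : Type) [Field K] (lam : K) (t : ℕ) (H : Matrix (Fin t) (Fin t) ℤ)
    (S : Finset (Fin t)) :
    Module.finrank K (EigK K lam (zerZ H S)) ≤ Module.finrank K (EigK K lam H) + 2 * S.card := by
  classical
  let L : EigK K lam (zerZ H S) →ₗ[K] (S → K) × (S → K) :=
    { toFun := fun u => (fun s => u.1 s.1, fun s => ∑ j, (H s.1 j : K) * u.1 j)
      map_add' := fun u v => by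
        refine Prod.ext ?_ ?_
        · rfl
        · funext s
          show ∑ j, (H s.1 j : K) * (u.1 j + v.1 j) =
            ∑ j, (H s.1 j : K) * u.1 j + ∑ j, (H s.1 j : K) * v.1 j
          rw [← Finset.sum_add_distrib]
          exact Finset.sum_congr rfl fun j _ => mul_add _ _ _
      map_smul' := fun c u => by
        refine Prod.ext ?_ ?_
        · rfl
        · funext s
          show ∑ j, (H s.1 j : K) * (c * u.1 j) = c * ∑ j, (H s.1 j : K) * u.1 j
          rw [Finset.mul_sum]
          exact Finset.sum_congr rfl fun j _ => by ring }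
  have h1 := LinearMap.finrank_range_add_finrank_ker L
  have h2 : Module.finrank K (LinearMap.range L) ≤ 2 * S.card := by
    have := Submodule.finrank_le (LinearMap.range L)
    rw [Module.finrank_prod, Module.finrank_fintype_fun_eq_card, Fintype.card_coe] at this
    omega
  have hker : ∀ u : LinearMap.ker L, (u.1.1 : Fin t → K) ∈ EigK K lam H := by
    intro u
    have h3 : L u.1 = 0 := u.2
    have h4 : ∀ s ∈ S, u.1.1 s = 0 := fun s hs => congrFun (congrArg Prod.fst h3) ⟨s, hs⟩
    have h5 : ∀ s ∈ S, ∑ j, (H s j : K) * u.1.1 j = 0 :=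
      fun s hs => congrFun (congrArg Prod.snd h3) ⟨s, hs⟩
    have h6 := mem_EigK.1 u.1.2
    rw [mem_EigK]
    intro i
    by_cases hi : i ∈ S
    · rw [h5 i hi, h4 i hi, mul_zero]
    · rw [← h6 i]
      apply Finset.sum_congr rfl
      intro j _
      by_cases hj : j ∈ S
      · rw [h4 j hj, mul_zero, mul_zero]
      · have h7 : zerZ H S i j = H i j := by
          show (if i ∈ S ∨ j ∈ S then 0 else H i j) = H i j
          rw [if_neg]
          exact fun h => h.elim hi hj
        rw [h7]
  let ψ : LinearMap.ker L →ₗ[K] EigK K lam H :=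
    { toFun := fun u => ⟨u.1.1, hker u⟩
      map_add' := fun _ _ => rfl
      map_smul' := fun _ _ => rfl }
  have hψ : Function.Injective ψ := by
    intro u v huv
    have h8 : u.1.1 = v.1.1 := congrArg (fun w : EigK K lam H => (w : Fin t → K)) huv
    exact Subtype.ext (Subtype.ext h8)
  have h3 := LinearMap.finrank_le_finrank_of_injective hψ
  omega

/-- R2D. -/
theorem R2D : R2D_stmt := by
  intro t P H S
  have hM := P.isMaximal
  let _ : Field (KP P) := Ideal.Quotient.field P.asIdeal
  exact R2D_field (KP P) (lamP P) t H S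

end Pool.Agent.helper42.NS
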