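import Pool.Agent.helper42.NS.Defs2

/-!
# At least `2 ^ (c n²)` different spectra: rows of the strong form

THEOREM. There is `c > 0` such that for all large `n` the graphs on `n` vertices have at least
`2 ^ (c n²)` different characteristic polynomials.

The proof of `Spec.lean` is refined so that `176` (instead of `O(log m)`) vectors `b_i` generate
`ℤ^m`, for a quarter of the graphs on `m = 2^(10a)` vertices, `a ≥ 40`. Then the disjoint union of
`177²` graphs suffices. The additional ideas: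

* No eigenvector is sparse (R1C; sparse = at most `2^(7a) = m^(7/10)` nonzero coordinates), at the
  points above small primes (`p < 2^(3a)`) even no additive functional of an eigenvector is sparse
  (R2C). Therefore a random `0/1` vector is orthogonal to an eigenvector with probability at most
  `2^(1-a)` if the residue field has at least `2^a` elements (FBB: Littlewood-Offord by Sperner for
  `p ≥ 2^(3a)`, Fourier for small `p`, and the degree for small `p` and large degree), and to an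
  eigenspace of dimension `c` with probability at most `q^(-c) + 2^(-2^a)` if `q < 2^a` (LCF).
* Exposing the vertices one at a time, the dimensions of the eigenspaces do a random walk with a
  strong drift to `0`; potential functions (POT) bound them by constants: `24` above one chosen
  prime `p` (ST1), so that `36` vectors generate a lattice of finite index prime to `p` and only
  `2^(40a+13)` points have an eigenspace of dimension `≥ 37` (CRE); `81` at all points with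
  `q ≥ 2^a` (ST2); `6` at all points with `q < 2^a`, of which there are few (ST3).

Here `m = 2^(10a)`, `L = 10a+3`, `r = 5L+3 = 50a+18`, `M = 2^(4L+1) = 2^(40a+13)`, `Δ = 2^(a-3)`.

Useful lemmas in finished rows of `Spec.lean` (you may import these files): `CNT_fin`, `CNT_gr`,
`CNT_inj` (Pool.Agent.helper38.NS.CNT), `PTS_crk`, `PTS_arith` (Pool.Agent.helper89.NS.PTS),
`KIL_*` (Pool.Agent.helper79.NS.KIL), `EXR_bad` (Pool.Agent.helper49.NS.EXR), `STP_fin`
(Pool.Agent.helper8.NS.STP), `DT1_*` (Pool.Agent.helper36.NS.DT1).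
-/

namespace Pool.Agent.helper42.NS

open Polynomial Matrix

/-! ## Block A: points and failure probabilities -/

/-- FIN. Every point lies above a prime, and its residue field is finite (of characteristic `p`).
Proof: `ℤ` is a Jacobson ring, so `P ∩ ℤ` is maximal
(`Ideal.Polynomial.isMaximal_comap_C_of_isMaximal` or similar), hence `(p)`, and `ℤ[X]/P` is a
finite extension of `ℤ/p` (`X` is algebraic over `ℤ/p`: otherwise `(ℤ/p)[X]` would be a field). -/
def FIN_stmt : Prop := ∀ P : Pt, Finite (KP P) ∧ ∃ p : ℕ, p.Prime ∧ Above p P ∧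
  (∀ p' : ℕ, p'.Prime → Above p' P → p' = p) ∧ ∃ d : ℕ, 0 < d ∧ qP P = p ^ d

/-- CNQ. At most `q` points have a residue field with `q` elements: all of these fields are
isomorphic to one field `F` (`GaloisField`, `FiniteField.ringEquivOfCardEq` or similar), `P` is the
kernel of `ℤ[X] → F`, `X ↦ x_P`, so `P ↦ x_P` is injective. -/
def CNQ_stmt : Prop := ∀ (q : ℕ) (s : Finset Pt), 0 < q → (∀ P ∈ s, qP P = q) → s.card ≤ q

/-- LO1 (Littlewood-Offord modulo a large prime). Proof: put `n₀ = 2^(2a)`,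
`h = (p-1) / (2 n₀) ≥ 1`. The number `w` of nonzero coordinates is at least `2^(7a-1)`. For a
nonzero coordinate `w_j` and `c` running through the nonzero residues, `c w_j` is in
`±{1..h}` for `2h ≥ (p-1)/(2 n₀)` values of `c`; so some `c` makes `c w_j ∈ ±{1..h}` for at least
`2^(7a-1)/(2 n₀) = 2^(5a-2) ≥ n₀` of the `j`; fix a set `J` of exactly `n₀` such `j`. Fix the values
of `b` outside `J`. After replacing `b_j` by `1 - b_j` where `c w_j ∈ -{1..h}`, the condition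
becomes `∑_(j ∈ A) v_j ≡ z mod p`, `1 ≤ v_j ≤ h`, where `A ⊆ J`; the sum is at most
`n₀ h ≤ (p-1)/2 < p`, so it is one fixed integer, and the sets `A` form an antichain: at most
`(n₀ choose n₀/2) ≤ 2^(n₀) / 2^a` of them (`IsAntichain.sperner`, and
`centralBinom n * √(2n) ≤ 4^n`, that is `(centralBinom n)^2 * 2 n ≤ 16^n`, by induction; here
`2 n = n₀`). -/
def LO1_stmt : Prop := ∀ (p a t : ℕ) (w : Fin t → ZMod p), p.Prime → 1 ≤ a → 2 ^ (3 * a) ≤ p →
  2 ^ (7 * a) ≤ 2 * Set.ncard {j | w j ≠ 0} →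
  Set.ncard {b : Fin t → Bool | dotb b w = 0} * 2 ^ a ≤ 2 ^ t

/-- LOA. The same for a vector over the residue field of a point not above a small prime. Let `p` be
the prime below `P` (FIN), `p ≥ 2^(3a)`. Choose an additive functional `φ : KP P → ZMod p` which is
nonzero on at least half of the nonzero `u_j` (`KP P` is a finite `ZMod p`-vector space; for fixed
`j` at most `1/p ≤ 1/2` of all functionals vanish at `u_j ≠ 0`; average), and apply LO1 to
`w = φ ∘ u`: `dotb b u = 0` implies `dotb b w = 0`. -/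
def LOA_stmt : Prop := ∀ (a t : ℕ) (P : Pt) (u : Fin t → KP P), 1 ≤ a → ¬ Sm a P →
  2 ^ (7 * a) < Set.ncard {j | u j ≠ 0} →
  Set.ncard {b : Fin t → Bool | dotb b u = 0} * 2 ^ a ≤ 2 ^ t

/-- LB. If `KP P` has `p^d` elements, an eigenvector is orthogonal to at most `2^(t-d)` vectors.
Proof: the `ZMod p`-span `V` of the coordinates of `u` is nonzero and stable under `lamP P`
(`lam u_i = ∑ H i j u_j`), hence an ideal of `KP P` (every element of `KP P` is a polynomial in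
`lamP P`), hence everything; so `d` of the coordinates form a basis of `KP P` over `ZMod p`, and the
values of `b` at the other coordinates determine the `d` remaining ones if `dotb b u = 0`. -/
def LB_stmt : Prop := ∀ (t p d : ℕ) (P : Pt) (H : Matrix (Fin t) (Fin t) ℤ) (u : Fin t → KP P),
  p.Prime → Above p P → qP P = p ^ d → u ∈ EigK (KP P) (lamP P) H → u ≠ 0 →
  Set.ncard {b : Fin t → Bool | dotb b u = 0} * 2 ^ d ≤ 2 ^ t

/-- LCF (Fourier). Let `K = KP P`, `p` the prime below, `φ : K → ZMod p` a nonzero additive map,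
`ψ(x) = exp(2 π i φ(x)/p)` (e.g. `ZMod.stdAddChar (φ x)`), `E` a `K`-subspace of `K^t` such that
`φ ∘ y` has more than `s` nonzero coordinates for all nonzero `y ∈ E`. For `b` in `{0,1}^t` the
mean over `y ∈ E` of `ψ(dotb b y)` is `1` if `b` is orthogonal to `E` and `0` otherwise (`y ↦ ψ(dotb b y)`
is a character of `E`; it is trivial iff `φ(c · dotb b y) = 0` for all `c ∈ K`, i.e.
`dotb b y = 0`). So the number of `b` orthogonal to `E` is `2^t` times the mean over `y ∈ E` of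
`∏_j (1 + ψ(y_j))/2`; here `|(1 + ψ(y_j))/2| = |cos(π φ(y_j)/p)| ≤ 1 - 1/p²` if `φ(y_j) ≠ 0`
(`cos x ≤ 1 - x²/2 + x⁴/24` at `x = π/p`, or `p = 2`; any proof of the bound `1 - 1/p²`). -/
def LCF_stmt : Prop := ∀ (t p s : ℕ) (P : Pt) (E : Submodule (KP P) (Fin t → KP P))
  (φ : KP P →+ ZMod p), p.Prime → Above p P → φ ≠ 0 →
  (∀ y ∈ E, y ≠ 0 → s < Set.ncard {j | φ (y j) ≠ 0}) →
  (Set.ncard {b : Fin t → Bool | ∀ u ∈ E, dotb b u = 0} : ℝ) ≤
    2 ^ t * (1 / (qP P : ℝ) ^ Module.finrank (KP P) E + (1 - 1 / (p : ℝ) ^ 2) ^ s)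

/-- LCA. The case of the eigenspaces: for a subspace `E` of the eigenspace of `H` with R2, at a point
above a small prime with `q ≤ p^(60a)`. LCF with `s = 2^(7a)` (a nonzero `φ` exists, `KP P` is a
nonzero finite `ZMod p`-vector space, FIN) and
`(1 - 1/p²)^(2^(7a)) ≤ exp(-2^(7a)/2^(6a)) = exp(-2^a) ≤ 2^(-2^a)`. -/
def LCA_stmt : Prop := ∀ (a t p : ℕ) (P : Pt) (H : Matrix (Fin t) (Fin t) ℤ)
  (E : Submodule (KP P) (Fin t → KP P)), p.Prime → Above p P → p < 2 ^ (3 * a) →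
  qP P ≤ p ^ (60 * a) → R2 a H → E ≤ EigK (KP P) (lamP P) H →
  (Set.ncard {b : Fin t → Bool | ∀ u ∈ E, dotb b u = 0} : ℝ) ≤
    2 ^ t * (1 / (qP P : ℝ) ^ Module.finrank (KP P) E + 1 / 2 ^ (2 ^ a))

/-- FBB. At a point with `q ≥ 2^a` a nonzero eigenvector is orthogonal to at most `2^(t-a+1)` vectors.
Let `p` be the prime below (FIN). If `p ≥ 2^(3a)`: R1 and LOA. If `p < 2^(3a)` and
`q ≤ p^(60a)`: LCA for the line spanned by `u`: `2^t (1/q + 2^(-2^a)) ≤ 2^t (2^(-a) + 2^(-a))`. If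
`q = p^d > p^(60a)`: `d > 60a`, LB. -/
def FBB_stmt : Prop := ∀ (a t : ℕ) (P : Pt) (H : Matrix (Fin t) (Fin t) ℤ) (u : Fin t → KP P),
  1 ≤ a → R1 a H → R2 a H → 2 ^ a ≤ qP P → u ∈ EigK (KP P) (lamP P) H → u ≠ 0 →
  Set.ncard {b : Fin t → Bool | dotb b u = 0} * 2 ^ (a - 1) ≤ 2 ^ t

/-- VT2. The dimension really decreases: `(s, w) ↦ w` embeds the new eigenspace into
`{w ∈ E : dotb b w = 0}` (see VTX), which is a proper subspace of `E`. -/
def VT2_stmt : Prop := ∀ (K : Type) [Field K] (lam : K) (t : ℕ) (H : Matrix (Fin t) (Fin t) ℤ)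
  (b : Fin t → Bool), (∀ i j, H i j = H j i) → (∃ u ∈ EigK K lam H, dotb b u ≠ 0) →
  Module.finrank K (EigK K lam (bord H (ind b))) + 1 ≤ Module.finrank K (EigK K lam H)

/-- PSB (one step at a big point). With `c = crk P H ≥ 1` and `Δ = 2^(a-3)`: by FBB at most
`2^(t-a+1)` vectors are orthogonal to `E`, for them the new dimension is at most `c + 1` (VTX), for the
others at most `c - 1` (VT2). So the sum is at most
`2^t (2^(1-a) Δ^(c+1) + Δ^(c-1)) = 2^t Δ^c (1/4 + 2^(3-a)) ≤ 2^t Δ^c / 2` for `a ≥ 5`. -/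
def PSB_stmt : Prop := ∀ (a t : ℕ) (P : Pt) (H : Matrix (Fin t) (Fin t) ℤ), 5 ≤ a →
  (∀ i j, H i j = H j i) → R1 a H → R2 a H → 2 ^ a ≤ qP P → 1 ≤ crk P H →
  2 * ∑ b : Fin t → Bool, (2 ^ (a - 3)) ^ crk P (bord H (ind b)) ≤
    2 ^ t * (2 ^ (a - 3)) ^ crk P H

/-- PSS (one step at a small point). With `c = crk P H ≤ 50a+18`, `q = qP P < 2^a`: the prime `p`
below satisfies `p ≤ q < 2^(3a)`, `q ≤ p^(60a)`, so by LCA at most `2^t (q^(-c) + 2^(-2^a))` vectors are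
orthogonal to the eigenspace; for them the new dimension is `≤ c + 1`, for the others `≤ c - 1`. The
sum is at most `2^t (q^(c-1) + q + 2^(-2^a) q^(c+1)) ≤ 2^t (q^c / 2 + q + 1)`, as
`q^(c+1) ≤ 2^(a(50a+19)) ≤ 2^(2^a)` for `a ≥ 15`; if `c = 0` the sum is at most `2^t q`. -/
def PSS_stmt : Prop := ∀ (a t : ℕ) (P : Pt) (H : Matrix (Fin t) (Fin t) ℤ), 15 ≤ a →
  (∀ i j, H i j = H j i) → R2 a H → qP P < 2 ^ a → crk P H ≤ 50 * a + 18 →
  (∑ b : Fin t → Bool, (qP P : ℝ) ^ crk P (bord H (ind b))) ≤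
    2 ^ t * ((qP P : ℝ) ^ crk P H / 2 + qP P + 1)

/-! ## Block B: no sparse eigenvectors -/

/-- TAL (tall matrices). Most `N × s` matrices with entries `0, 1` have independent columns modulo every
prime. Let `N₁ = N/2`, `N₂ = N - N₁ ≥ N₁`. (i) By KIL (`K = ZMod 2`, `E = ⊤`, `k = N₁`) for at most
`2^(Ns) 2^s / 2^(N₁)` matrices some `u ≠ 0` over `ZMod 2` is killed by the first `N₁` rows. (ii) Otherwise
`s` of these rows have an odd determinant `D`, `|D| ≤ s! ≤ s^s`, with at most `log₂ s^s ≤ s²` prime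
factors; if `A u = 0`, `u ≠ 0` over `ZMod p`, then `p ∣ D`; for each such `p` by KIL (`K = ZMod p`,
`k = N₂`) at most `2^(N₂ s) 2^s / 2^(N₂)` choices of the other rows allow a common `u`. -/
def TAL_stmt : Prop := ∀ (N s : ℕ),
  Set.ncard {A : Fin N → Fin s → Bool | ∃ p : ℕ, p.Prime ∧ ∃ u : Fin s → ZMod p, u ≠ 0 ∧
    ∀ i, dotb (A i) u = 0} * 2 ^ (N / 2) ≤ 2 ^ (N * s) * (2 ^ s * (s ^ 2 + 1))

/-- R1C. Most graphs satisfy R1. If R1 fails at `P` (above `p`) and `u`, choose `S ⊇ supp u` with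
`|S| = τ = 2^(7a)` and an additive functional `φ : KP P → ZMod p` with `φ ∘ u ≠ 0`: then
`∑_(i ∈ S) H j i φ(u i) = φ(lam u_j) = 0` for `j ∉ S`, so the matrix of the `H j i` (`j ∉ S`, `i ∈ S`) is
one of the matrices in TAL (`N = t - τ`, `s = τ`). For fixed `S` the number of graphs with this property
is (number of such matrices) times `2^((t choose 2) - N τ)`; there are at most `t^τ ≤ 2^(10aτ)`
sets `S`. Total: `2^(t choose 2)` times `2^(10aτ + τ + 14a + 1 - (t-τ)/2 + 1)`, and the exponent is at most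
`-11a` for `t ≥ 2^(10a-1)`, `a ≥ 4`. -/
def R1C_stmt : Prop := ∀ (a t : ℕ), 4 ≤ a → 2 ^ (10 * a - 1) ≤ t → t ≤ 2 ^ (10 * a) →
  cnt t (fun H => ¬ R1 a H) * 2 ^ (11 * a) ≤ 2 ^ (t.choose 2)

/-- R2A (algebra). Let `f` be the minimal polynomial of `lam = lamP P` over `ZMod p`, `d = deg f`
(`q = p^d`, so `d ≤ D`); `1, lam, ..., lam^(d-1)` span `KP P` over `ZMod p`. Put
`η_(s,i) = φ(lam^i y_s)` for `s ∈ S` and `w_l(j) = φ(lam^l y_j)` for `j ∉ S`, `0` for `j ∈ S`. Then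
`w_0 = 0`, `w_(l+1) = Ĥ w_l + ∑_(s∈S) η_(s,l) b̂_s` (`Ĥ = zer p H S`, `b̂_s = colS p H S s`), so
`w_l = ∑_(i<l) Ĥ^(l-1-i) ∑_s η_(s,i) b̂_s`, and `∑_l f_l w_l = 0`. So Rel holds with
`g_s = ∑_(l≤d) f_l ∑_(i<l) η_(s,i) X^(l-1-i)`, of degree `< d`. If all `g_s = 0` (`s ∈ S`): the coefficient
of `X^(d-1-i)` is `η_(s,i)` plus a combination of the `η_(s,i')`, `i' < i`, so all `η_(s,i) = 0`, hence
`φ` vanishes on `KP P · y_s` and `y_s = 0` (`φ ≠ 0`); then all `w_l = Ĥ^l w_0 = 0` and in the same way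
`y_j = 0` for `j ∉ S`: contradiction. -/
def R2A_stmt : Prop := ∀ (t p D : ℕ) (P : Pt) (H : Matrix (Fin t) (Fin t) ℤ) (y : Fin t → KP P)
  (φ : KP P →+ ZMod p) (S : Finset (Fin t)), p.Prime → Above p P → qP P ≤ p ^ D → φ ≠ 0 →
  y ∈ EigK (KP P) (lamP P) H → y ≠ 0 → (∀ j, j ∉ S → φ (y j) = 0) →
  ∃ g : Fin t → (ZMod p)[X], (∃ s ∈ S, g s ≠ 0) ∧ (∀ s, (g s).degree < D) ∧ Rel p H S g

/-- R2B (kernels of polynomials in `A`). Induction on the degree of `g` over the irreducible factors: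
`dim ker (f g')(A) ≤ dim ker f(A) + dim ker g'(A)`. For `f` monic irreducible modulo `p` of degree `e`
let `P` be the point generated by `p` and a lift of `f`, `K = KP P`, so `qP P = p^e`. The map
`W = ker f(A) → K^t`, `w ↦ ∑_(i<e) h_i A^i w`, `h_i = ∑_(l>i) f_l lam^(l-i-1)`, goes into
`EigK K lam A` (as `f(x) = (x - lam) ∑_i h_i x^i` over `K`) and is injective (`h_0, ..., h_(e-1)` are
a basis of `K` over `ZMod p`, since `h_(e-1) = 1`, triangular). Counting elements: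
`p^(dim W) ≤ (p^e)^(crk P A)`, so `dim W ≤ e crk P A ≤ e C`. -/
def R2B_stmt : Prop := ∀ (t p C : ℕ) (A : Matrix (Fin t) (Fin t) ℤ) (g : (ZMod p)[X])
  [Fact p.Prime], (∀ P : Pt, Above p P → crk P A ≤ C) → g ≠ 0 →
  Module.finrank (ZMod p) (LinearMap.ker (Matrix.mulVecLin
    (Polynomial.aeval (A.map (fun z : ℤ => (z : ZMod p))) g))) ≤ g.natDegree * C

/-- R2D (deleting rows and columns). `crk P (zerZ H S) ≤ crk P H + 2 |S|`: the vectors `u` of the
eigenspace of `zerZ H S` with `u_s = 0` and `∑_j H s j u_j = 0` for `s ∈ S` (`2 |S|` linear conditions)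
are in the eigenspace of `H`. -/
def R2D_stmt : Prop := ∀ (t : ℕ) (P : Pt) (H : Matrix (Fin t) (Fin t) ℤ) (S : Finset (Fin t)),
  crk P (zerZ H S) ≤ crk P H + 2 * S.card

/-- R2E (counting for fixed `p, S, g`). Let `s ∈ S`, `g s ≠ 0`. Group the graphs `H` by the graph `H⁰`
in which all edges between `s` and the vertices outside `S` are removed: there are at most
`2^((t choose 2) - (t - |S|))` of the `H⁰`. In one group `zer p H S` and the columns
`colS p H S s'`, `s' ≠ s`, are the same and Rel says `g_s(Ĥ) b̂ = z` for the `0/1` vector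
`b̂ = colS p H S s`, which determines `H` in the group. The number of `0/1` vectors in a coset of a
space `V` is at most `2^(dim V)` (as in ODL), and `dim ker g_s(Ĥ) ≤ D (C + 2 |S|)` by R2B and R2D
(`zer p H S` is `zerZ H S` modulo `p`), if the group contains a graph `H` of the set. -/
def R2E_stmt : Prop := ∀ (t p D C : ℕ) (S : Finset (Fin t)) (s : Fin t)
  (g : Fin t → (ZMod p)[X]), p.Prime → s ∈ S → g s ≠ 0 → (∀ s, (g s).degree < D) →
  cnt t (fun H => (∀ P : Pt, Above p P → crk P H ≤ C) ∧ Rel p H S g) * 2 ^ (t - S.card) ≤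
    2 ^ (t.choose 2) * 2 ^ (D * (C + 2 * S.card))

/-- R2C. Most good graphs satisfy R2. If R2 fails there are `p < 2^(3a)`, `P`, `φ`, `y` and a set `S`
with exactly `τ = 2^(7a)` elements containing `{j | φ (y j) ≠ 0}`; R2A (`D = 60a`) gives `g`, where one
may put `g s = 0` for `s ∉ S`. The numbers of choices: `p`: `2^(3a)`, `S`: `t^τ ≤ 2^(10aτ)`, `g`:
`p^(60aτ) ≤ 2^(180a²τ)`; for each choice R2E with `C = 5(10a+3)+3 = 50a+18` gives at most
`2^(t choose 2) 2^(60a (50a+18+2τ) - (t-τ))` graphs. The exponent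
`3a + 10aτ + 180a²τ + 60a(50a+18+2τ) + τ - t` is at most `-11a` for `t ≥ 2^(10a-1)`, `a ≥ 6`. -/
def R2C_stmt : Prop := ∀ (a t : ℕ), 6 ≤ a → 2 ^ (10 * a - 1) ≤ t → t ≤ 2 ^ (10 * a) →
  cnt t (fun H => Good (10 * a + 3) H ∧ ¬ R2 a H) * 2 ^ (11 * a) ≤ 2 ^ (t.choose 2)

/-! ## Block C: counting along the segments -/

/-- HER. Union bound over the segments: the number of graphs on `Fin m` whose segment on `t` vertices
is a given graph is `2^((m choose 2) - (t choose 2))`. Induction on `m`: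
`cnt (m+1) (¬ Hered) ≤ cnt (m+1) (¬ Q (m+1)) + 2^m cnt m (¬ Hered)`, since
`(H, b) ↦ bord H (ind b)` is a bijection from (graphs on `Fin m`) × `{0,1}^m` to the graphs on
`Fin (m+1)`. -/
def HER_stmt : Prop := ∀ (Q : ∀ t : ℕ, Matrix (Fin t) (Fin t) ℤ → Prop) (ε : ℕ → ℝ) (m : ℕ),
  (∀ t, t ≤ m → (cnt t (fun H => ¬ Q t H) : ℝ) ≤ ε t * 2 ^ (t.choose 2)) →
  (cnt m (fun H => ¬ Hered Q m H) : ℝ) ≤ (∑ t ∈ Finset.range (m + 1), ε t) * 2 ^ (m.choose 2)

/-- POT (potential functions). Let `Y t` be the sum of `X t H` over the graphs `H` on `Fin t` with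
`Hered Q t H`. The hypothesis gives `Y (t+1) ≤ 2^t (Y t / 2 + β 2^(t choose 2))` for `t₀ ≤ t < m`, so
`Y m ≤ 2^(m choose 2) (X₀ / 2^(m-t₀) + 2 β)` by induction, and Markov's inequality. -/
def POT_stmt : Prop := ∀ (Q : ∀ t : ℕ, Matrix (Fin t) (Fin t) ℤ → Prop)
  (X : ∀ t : ℕ, Matrix (Fin t) (Fin t) ℤ → ℝ) (t₀ m : ℕ) (X₀ β T : ℝ), t₀ ≤ m → 0 ≤ β → 0 ≤ X₀ →
  0 < T → (∀ t H, 0 ≤ X t H) →
  (∀ H, IsGr H → Hered Q t₀ H → X t₀ H ≤ X₀) →
  (∀ t, t₀ ≤ t → t < m → ∀ H, IsGr H → Hered Q t H →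
    ∀ s : Finset (Fin t → Bool), (∀ b ∈ s, Hered Q (t + 1) (bord H (ind b))) →
      (∑ b ∈ s, X (t + 1) (bord H (ind b))) ≤ 2 ^ t * (X t H / 2 + β)) →
  (cnt m (fun H => Hered Q m H ∧ T ≤ X m H) : ℝ) * T ≤
    2 ^ (m.choose 2) * (X₀ / 2 ^ (m - t₀) + 2 * β)

/-- CRU. All segments are good, for most graphs. As CNT, from STP: by induction
`cnt t (¬ Hered Good) * 2^(L+1) ≤ t 2^(t choose 2)` (for `t = 0` all `crk` are `0`). -/
def CRU_stmt : Prop := ∀ (L m : ℕ), 1 ≤ L → m ≤ 2 ^ L →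
  cnt m (fun H => ¬ Hered (fun _ H => Good L H) m H) * 2 ^ (L + 1) ≤ m * 2 ^ (m.choose 2)

/-! ## Block D: finite index and the three stages -/

/-- DTP. As DT1, for any prime `p` instead of `2` (PBH for `{ind (B i)} ∪ {p e_j}`). -/
def DTP_stmt : Prop := ∀ (t k p : ℕ) (H : Matrix (Fin t) (Fin t) ℤ) (B : Fin k → Fin t → Bool),
  p.Prime → (∀ i j, H i j = H j i) → (∀ P : Pt, Above p P → ¬ Bad P H B) →
  ∃ (l : Fin t → ℕ) (c : Fin t → Fin k), (∀ a, l a < t) ∧
    ¬ (p : ℤ) ∣ Matrix.det (Matrix.of fun a j => ((H ^ l a).mulVec (ind (B (c a)))) j)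

/-- PTQ. As PTS, for any prime `p` instead of `2` (DTP, DT2, DT3, PTP). -/
def PTQ_stmt : Prop := ∀ (t k L p : ℕ) (H : Matrix (Fin t) (Fin t) ℤ)
  (B : Fin k → Fin t → Bool), p.Prime → IsGr H → t ≤ 2 ^ L →
  (∀ P : Pt, Above p P → ¬ Bad P H B) →
  ∀ s : Finset Pt, (∀ P ∈ s, Bad P H B) → s.card ≤ 2 ^ (4 * L + 1)

/-- KI2. If every nonzero vector of `E` is orthogonal to at most `2^(t-e)` vectors, then for
`d = dim E` the number `N(k, E)` of the tuples orthogonal to some nonzero vector of `E` is at most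
`2^k 2^(-e(k+1-d)) 2^(tk)` (truncated subtraction). Induction on `k` for all `E` with the property
(subspaces inherit it). `k = 0`: `N = 0` if `d = 0`. Step, `d ≥ 1`: `N(k+1,E) = ∑_b N(k, E_b)`; at most
`2^(t-e)` of the `b` are orthogonal to `E`, for the others `dim E_b = d - 1`; both parts are at most
`2^k 2^(-e(k+2-d)) 2^(t(k+1))` (if `d ≥ k + 2` the claim is trivial). -/
def KI2_stmt : Prop := ∀ (K : Type) [Field K] (t e k : ℕ) (E : Submodule K (Fin t → K)),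
  (∀ u ∈ E, u ≠ 0 → Set.ncard {b : Fin t → Bool | dotb b u = 0} * 2 ^ e ≤ 2 ^ t) →
  Set.ncard {B : Fin k → Fin t → Bool | ∃ u ∈ E, u ≠ 0 ∧ ∀ i, dotb (B i) u = 0} *
    2 ^ (e * (k + 1 - Module.finrank K E)) ≤ 2 ^ k * 2 ^ (t * k)

/-- EXS. `36` vectors for the points above `p`. By PTP at most `t ≤ 2^(10a)` points `P` above `p` have
`crk P H ≠ 0`; they are not above a small prime (FIN, `p ≥ 2^(3a)`), so by R1 and LOA every nonzero
eigenvector is orthogonal to at most `2^(t-a)` vectors; KI2 with `e = a`, `k = 36`, `d ≤ 24`: at most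
`2^36 2^(-13a) 2^(36t)` tuples are bad for `P`, in total at most `2^(10a+36-13a)` times all tuples,
less than all for `a ≥ 13`. -/
def EXS_stmt : Prop := ∀ (a t p : ℕ) (H : Matrix (Fin t) (Fin t) ℤ), 13 ≤ a → p.Prime →
  2 ^ (3 * a) ≤ p → (∀ i j, H i j = H j i) → R1 a H → t ≤ 2 ^ (10 * a) →
  (∀ P : Pt, Above p P → crk P H ≤ 24) →
  ∃ B : Fin 36 → Fin t → Bool, ∀ P : Pt, Above p P → ¬ Bad P H B

/-- CRE. At most `2^(40a+13)` points have `crk P H ≥ 37`: they are bad for the `36` vectors of EXS;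
PTQ with `L = 10a+3`. -/
def CRE_stmt : Prop := ∀ (a t p : ℕ) (H : Matrix (Fin t) (Fin t) ℤ), 13 ≤ a → p.Prime →
  2 ^ (3 * a) ≤ p → IsGr H → R1 a H → t ≤ 2 ^ (10 * a) →
  (∀ P : Pt, Above p P → crk P H ≤ 24) →
  ∀ s : Finset Pt, (∀ P ∈ s, 37 ≤ crk P H) → s.card ≤ 2 ^ (40 * a + 13)

/-- ST1. The points above `p`. POT for `Q = Q1 a`, `t₀ = 2^(10a-1)`, `m := t`,
`X t H = ∑ Δ^(crk P H)` over the points `P` above `p` with `crk P H ≠ 0` (at most `t` of them by PTP,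
use `finsum` or a finite set), `Δ = 2^(a-3)`, `β = 2^(10a) Δ`, `X₀ = 2^(10a) Δ^(50a+18)`, `T = Δ^25`. One
step: the points with `crk P H ≥ 1` contribute at most `2^t X/2` (PSB; `qP P ≥ p ≥ 2^a`), the points
with `crk P H = 0` and `crk P (bord H b) ≠ 0` (then it is `1` by VTX) are at most `t + 1` for every `b`
(PTP for `bord H b`). Result: at most
`2^(t choose 2) (X₀/2^(t-t₀) + 2β) / Δ^25`, with `t - t₀ ≥ 2^(10a-2)`, so `X₀/2^(t-t₀) ≤ 1` and this is
at most `2^(t choose 2) 2^(10a+2) Δ^(-24) = 2^(t choose 2) 2^(74-14a)`. -/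
def ST1_stmt : Prop := ∀ (a t p : ℕ), 20 ≤ a → p.Prime → 2 ^ (3 * a) ≤ p →
  3 * 2 ^ (10 * a - 2) ≤ t → t ≤ 2 ^ (10 * a) →
  cnt t (fun H => Hered (Q1 a) t H ∧ ∃ P : Pt, Above p P ∧ 25 ≤ crk P H) * 2 ^ (14 * a) ≤
    2 ^ 74 * 2 ^ (t.choose 2)

/-- ST2. The big points. POT for `Q = Q2 a p`, `t₀ = 3 * 2^(10a-2)`, `m = 2^(10a)`,
`X t H = ∑ Δ^(crk P H - 37)` over the points with `2^a ≤ qP P` and `37 ≤ crk P H` (at most
`M = 2^(40a+13)` by CRE), `β = M`, `X₀ = M Δ^(50a+18)`, `T = Δ^45`. One step: for points with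
`crk P H ≥ 37` PSB (divided by `Δ^37`); a point with `crk P H ≤ 36` and `crk P (bord H b) ≥ 37` has
`crk P (bord H b) = 37` and contributes `1`, and there are at most `M` of them for every `b` with
`Hered Q2 (t+1) (bord H b)` (CRE). Result: at most `2^(m choose 2) (X₀/2^(m-t₀) + 2M)/Δ^45` with
`m - t₀ = 2^(10a-2)`, which is at most `2^(m choose 2) 2^(40a+15) 2^(-45(a-3)) = 2^(m choose 2) 2^(150-5a)`. -/
def ST2_stmt : Prop := ∀ (a p : ℕ), 20 ≤ a → p.Prime → 2 ^ (3 * a) ≤ p →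
  cnt (2 ^ (10 * a)) (fun H => Hered (Q2 a p) (2 ^ (10 * a)) H ∧
    ∃ P : Pt, 2 ^ a ≤ qP P ∧ 82 ≤ crk P H) * 2 ^ (5 * a) ≤
    2 ^ 150 * 2 ^ ((2 ^ (10 * a)).choose 2)

/-- ST3. The small points. For one point `P` with `q = qP P < 2^a`: POT for `Q = Q1 a`,
`t₀ = 2^(10a-1)`, `m = 2^(10a)`, `X t H = q^(crk P H)`, `β = q + 1` (PSS), `X₀ = 2^(a(50a+18))`, `T = q^7`:
at most `2^(m choose 2) (2q + 3)/q^7 ≤ 2^(m choose 2) 3.5 / q^6` graphs have `crk P H ≥ 7`. There are at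
most `q` points with `qP P = q` (CNQ), so the total is at most `2^(m choose 2)` times
`∑_(q≥2) 3.5/q^5 ≤ (3.5/8) ∑_(q≥2) 1/q² ≤ 0.4375 < 9/20`. -/
def ST3_stmt : Prop := ∀ (a : ℕ), 20 ≤ a →
  cnt (2 ^ (10 * a)) (fun H => Hered (Q1 a) (2 ^ (10 * a)) H ∧
    ∃ P : Pt, qP P < 2 ^ a ∧ 7 ≤ crk P H) * 20 ≤ 9 * 2 ^ ((2 ^ (10 * a)).choose 2)

/-- GS. A quarter of the graphs are fine. Let `m = 2^(10a)`. The exceptions: CRU with `L = 10a+3`:
at most `2^(10a)/2^(10a+4) = 1/16` of all graphs; HER for `fun t H => 2^(10a-1) ≤ t → t ≤ 2^(10a) →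
R1 a H ∧ (Good (10a+3) H → R2 a H)`, with R1C and R2C: `2^(10a+1) 2 · 2^(-11a) ≤ 2^(2-a)`; the others
satisfy `Hered (Q1 a) m`. HER for `fun t H => 3 * 2^(10a-2) ≤ t → Hered (Q1 a) t H →
∀ P, Above p P → crk P H ≤ 24` with ST1: `2^(10a+1) 2^(74-14a)`; the others satisfy `Hered (Q2 a p) m`.
ST2: `2^(150-5a)`; ST3: `9/20`. The sum is less than `3/4` for `a ≥ 40`. -/
def GS_stmt : Prop := ∀ (a p : ℕ), 40 ≤ a → p.Prime → 2 ^ (3 * a) ≤ p →
  2 ^ ((2 ^ (10 * a)).choose 2) ≤ 4 * cnt (2 ^ (10 * a)) (fun H => Fine a p H)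

/-- GE2. For a fine graph `176` vectors generate `ℤ^m`. Let `B₁` be the `36` vectors of EXS; by PTQ
(`L = 10a+3`) at most `2^(40a+13)` points are bad for `B₁`. For a tuple `B₂` of `140` vectors: (i) the big
points (`qP P ≥ 2^a`) bad for `B₁`: each has `crk ≤ 81`, FBB and KI2 (`e = a-1`, `k = 140`) give at most
`2^140 2^(-60(a-1)) 2^(140m)` bad tuples, in total at most `2^(213-20a) ≤ 1/4` of all. (ii) the small
points: `crk ≤ 6`, fewer than `q^6` nonzero vectors `y`, each orthogonal to at most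
`2^m (1/q + 2^(-2^a)) ≤ 2^m (2^(1/140)/q)` vectors (LCA), so at most `2 q^(6-140)` of the tuples, at
most `q` points for each `q` (CNQ): total at most `∑_(q≥2) 2 q^(-133) ≤ 1/4`. So some `B₂` leaves no bad
point for `(B₁, B₂)` (`Fin.append`), and PBH gives `Kry = ⊤`. -/
def GE2_stmt : Prop := ∀ (a p : ℕ) (H : Matrix (Fin (2 ^ (10 * a))) (Fin (2 ^ (10 * a))) ℤ),
  40 ≤ a → p.Prime → 2 ^ (3 * a) ≤ p → IsGr H → Fine a p H →
  ∃ B : Fin 176 → Fin (2 ^ (10 * a)) → Bool, Kry H (Set.range fun i => ind (B i)) = ⊤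

/-- CTG. The counting of CTF for any `k` and any set of graphs (here for a quarter of all graphs). -/
def CTG_stmt : Prop := ∀ (m k n : ℕ),
  2 ^ (m.choose 2) ≤ 4 * cnt m (fun H => ∃ B : Fin k → Fin m → Bool,
    Kry H (Set.range fun i => ind (B i)) = ⊤) →
  (k + 1) ^ 2 * (m + 2) ≤ n →
  2 ^ (m.choose 2) ≤ 4 * Set.ncard (specs n) * 2 ^ (n * (k + 1) ^ 2) * m.factorial

/-- ASG. The asymptotics: for large `n` choose the largest `a` with `177² (2^(10a) + 2) ≤ n`; then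
`m = 2^(10a) ≥ n / (2^11 · 177²)` and the logarithm to base 2 of `σ n` is at least
`m (m-1)/2 - 2 - 177² n - m log₂ m ≥ c n²`. -/
def ASG_stmt : Prop := ∀ (σ : ℕ → ℕ),
  (∀ (a n : ℕ), 40 ≤ a → 177 ^ 2 * (2 ^ (10 * a) + 2) ≤ n →
    2 ^ ((2 ^ (10 * a)).choose 2) ≤
      4 * σ n * 2 ^ (n * 177 ^ 2) * (2 ^ (10 * a)).factorial) →
  ∃ c : ℝ, 0 < c ∧ ∃ n₀ : ℕ, ∀ n : ℕ, n₀ ≤ n → (2 : ℝ) ^ (c * (n : ℝ) ^ 2) ≤ (σ n : ℝ)

end Pool.Agent.helper42.NS
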