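import Pool.Agent.helper42.NS.Spec2
import Pool.Agent.helper90.NS.VTX

set_option autoImplicit false

/-!
# Row nos2:VT2
-/

namespace Pool.Agent.helper42.NS

open Polynomial Matrix

/-- VT2. -/
theorem VT2 : VT2_stmt := by
  intro K _ lam t H b hH hu0
  obtain ⟨u, hu, hub⟩ := hu0
  let ψ : EigK K lam (bord H (ind b)) →ₗ[K] EigK K lam H :=
    { toFun := fun z => ⟨fun i => z.1 i.succ, VTX_mem z.2 (VTX_zero hH z.2 hu hub)⟩
      map_add' := fun _ _ => rfl
      map_smul' := fun _ _ => rfl }
  have hψ : Function.Injective ψ := by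
    intro z z' hzz
    apply Subtype.ext
    funext i
    refine Fin.cases ?_ (fun j => ?_) i
    · rw [VTX_zero hH z.2 hu hub, VTX_zero hH z'.2 hu hub]
    · have := congrArg Subtype.val hzz
      exact congrFun this j
  have hdot : ∀ z : EigK K lam (bord H (ind b)), dotb b (ψ z).1 = 0 := by
    intro z
    have h0 := VTX_zero hH z.2 hu hub
    have h1 := mem_EigK.1 z.2 0
    rw [Fin.sum_univ_succ, h0] at h1
    simp only [mul_zero, zero_add, bord_zero_succ] at h1
    have h2 : dotb b (ψ z).1 = ∑ j : Fin t, ((ind b j : ℤ) : K) * z.1 j.succ := by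
      unfold dotb
      apply Finset.sum_congr rfl
      intro j _
      unfold ind
      by_cases hb : b j = true
      · rw [if_pos hb, if_pos hb, Int.cast_one, one_mul]
        rfl
      · rw [if_neg hb, if_neg hb, Int.cast_zero, zero_mul]
    rw [h2]
    exact h1
  have hne : LinearMap.range ψ ≠ ⊤ := by
    intro htop
    have h1 : (⟨u, hu⟩ : EigK K lam H) ∈ LinearMap.range ψ := by rw [htop]; trivial
    obtain ⟨z, hz⟩ := h1
    have h2 := hdot z
    rw [hz] at h2
    exact hub h2
  have h3 : Module.finrank K (LinearMap.range ψ) < Module.finrank K (EigK K lam H) :=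
    Submodule.finrank_lt hne
  rw [LinearMap.finrank_range_of_inj hψ] at h3
  exact h3

end Pool.Agent.helper42.NS
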