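import Pool.Agent.helper42.NS.Main
import Pool.Agent.helper42.NS.Spec2
import Pool.Agent.helper42.NS.JAC
import Pool.Agent.helper25.NS.RIG
import Pool.Agent.helper77.NS.FIN
import Pool.Agent.helper53.NS.CNQ
import Pool.Agent.helper84.NS.LO1
import Pool.Agent.helper53.NS.LOA
import Pool.Agent.helper63.NS.LB
import Pool.Agent.helper42.NS.LCF
import Pool.Agent.helper42.NS.LCA
import Pool.Agent.helper42.NS.FBB
import Pool.Agent.helper42.NS.VT2
import Pool.Agent.helper46.NS.PSB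
import Pool.Agent.helper96.NS.PSS
import Pool.Agent.helper66.NS.TAL
import Pool.Agent.helper32.NS.R1C
import Pool.Agent.helper42.NS.R2A
import Pool.Agent.helper42.NS.R2B
import Pool.Agent.helper42.NS.R2D
import Pool.Agent.helper49.NS.R2E
import Pool.Agent.helper46.NS.R2C
import Pool.Agent.helper46.NS.HER
import Pool.Agent.helper63.NS.POT
import Pool.Agent.helper72.NS.CRU
import Pool.Agent.helper76.NS.DTP
import Pool.Agent.helper42.NS.PTQ
import Pool.Agent.helper32.NS.KI2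
import Pool.Agent.helper32.NS.EXS
import Pool.Agent.helper96.NS.CRE
import Pool.Agent.helper98.NS.ST1
import Pool.Agent.helper48.NS.ST2
import Pool.Agent.helper50.NS.ST3
import Pool.Agent.helper98.NS.GS
import Pool.Agent.helper98.NS.GE2
import Pool.Agent.helper88.NS.CTG
import Pool.Agent.helper42.NS.ASG

set_option autoImplicit false

/-!
# At least `2 ^ (c n²)` different spectra: assembly
-/

namespace Pool.Agent.helper42.NS

theorem T_MOM : MOM_stmt := MOM BOR (JAC BOR) T_MO2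
theorem T_ISO : ISO_stmt := ISO T_MOM RIG
theorem T_LOA : LOA_stmt := LOA FIN LO1
theorem T_LCA : LCA_stmt := LCA FIN (LCF FIN)
theorem T_FBB : FBB_stmt := FBB FIN T_LOA T_LCA (LB FIN)
theorem T_PSB : PSB_stmt := PSB VTX VT2 T_FBB
theorem T_PSS : PSS_stmt := PSS VTX VT2 FIN T_LCA
theorem T_TAL : TAL_stmt := TAL T_KIL
theorem T_R1C : R1C_stmt := R1C FIN T_TAL
theorem T_R2E : R2E_stmt := R2E (R2B FIN) R2D
theorem T_R2C : R2C_stmt := R2C FIN (R2A FIN) T_R2E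
theorem T_CRU : CRU_stmt := CRU T_STP
theorem T_PTQ : PTQ_stmt := PTQ PTP (DTP PBH) DT2 DT3
theorem T_EXS : EXS_stmt := EXS PTP FIN T_LOA KI2
theorem T_CRE : CRE_stmt := CRE T_EXS T_PTQ
theorem T_ST1 : ST1_stmt := ST1 POT T_PSB PTP VTX FIN
theorem T_ST2 : ST2_stmt := ST2 POT T_PSB T_CRE VTX
theorem T_ST3 : ST3_stmt := ST3 POT T_PSS (CNQ FIN) FIN
theorem T_GS : GS_stmt := GS T_CRU HER T_R1C T_R2C T_ST1 T_ST2 T_ST3
theorem T_GE2 : GE2_stmt := GE2 T_EXS T_PTQ T_FBB KI2 T_LCA (CNQ FIN) PBH FIN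
theorem T_CTG : CTG_stmt := CTG T_ISO DIV UNI

/-- For `a ≥ 40`, `m = 2 ^ (10 a)` and `n ≥ 177² (m + 2)`. -/
theorem main_nat (a n : ℕ) (ha : 40 ≤ a) (hn : 177 ^ 2 * (2 ^ (10 * a) + 2) ≤ n) :
    2 ^ ((2 ^ (10 * a)).choose 2) ≤
      4 * Set.ncard (specs n) * 2 ^ (n * 177 ^ 2) * (2 ^ (10 * a)).factorial := by
  obtain ⟨p, hp, hlt, -⟩ := Nat.exists_prime_lt_and_le_two_mul (2 ^ (3 * a)) (by positivity)
  have h1 := T_GS a p ha hp hlt.le
  have h2 : cnt (2 ^ (10 * a)) (fun H => Fine a p H) ≤ cnt (2 ^ (10 * a)) (fun H =>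
      ∃ B : Fin 176 → Fin (2 ^ (10 * a)) → Bool, Kry H (Set.range fun i => ind (B i)) = ⊤) := by
    unfold cnt
    apply Set.ncard_le_ncard
    · intro H hH
      exact ⟨hH.1, T_GE2 a p H ha hp hlt.le hH.1 hH.2⟩
    · exact (CNT_fin _).subset fun H h => h.1
  exact T_CTG (2 ^ (10 * a)) 176 n (h1.trans (Nat.mul_le_mul_left 4 h2)) hn

/-- At least `2 ^ (c n²)` different characteristic polynomials. -/
theorem main_strong : ∃ c : ℝ, 0 < c ∧ ∃ n₀ : ℕ, ∀ n : ℕ, n₀ ≤ n →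
    (2 : ℝ) ^ (c * (n : ℝ) ^ 2) ≤ (Set.ncard (specs n) : ℝ) :=
  ASG (fun n => Set.ncard (specs n)) main_nat

end Pool.Agent.helper42.NS
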