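import Pool.Agent.helper42.NS.Defs

/-!
# The number of different spectra of graphs on n vertices: rows

THEOREM (MAIN). There is `c > 0` such that for all large `n` the graphs on `n` vertices have at
least `2 ^ (c n² / (log n)⁴)` different characteristic polynomials.

Proof. For `H` (adjacency matrix of a graph on `Fin m`) and `0/1` vectors `b_1, ..., b_k` let
`Kry` be the lattice generated by all `H^l b_i`. If it is `ℤ^m`, then the moments
`b_iᵀ H^l b_j` determine `H` up to isomorphism (RIG), and they are determined by the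
characteristic polynomials of the graphs `dbl H b_i b_j` (MOM). For at least half of the graphs
such `b_i` exist with `k = 12 L + 8`, `m ≤ 2^L` (CNT, GEN): the lattice is not `ℤ^m` iff some
maximal ideal `P` of `ℤ[X]` is bad (PBH), and one controls the dimensions of the eigenspaces
`EigK (KP P) (lamP P) H` by exposing the vertices one at a time (VTX, ODL, STP). The disjoint
union of the `(k+1)²` graphs `dbl H b_i b_j` has as characteristic polynomial the product of
theirs, and a monic polynomial of degree `n` has at most `2^n` monic divisors (DIV), so that few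
tuples have the same product (CTF).

General remarks. All fields here are in `Type`. `KP P = ℤ[X] ⧸ P.asIdeal` is a field
(`Ideal.Quotient.field P.asIdeal`, with `haveI := P.isMaximal`; use `letI := Ideal.Quotient.field`
inside proofs), `EigK`, `crk`, `Bad` are stated for the commutative ring structure, which is
definitionally the one of the field.
-/

namespace Pool.Agent.helper42.NS

open Polynomial Matrix

/-! ## Block 1: linear algebra over fields -/

/-- ODL (Odlyzko). A subspace of `K^t` of dimension `d` is orthogonal to at most `2^(t-d)`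
vectors with entries `0, 1`. Proof: choose `d` coordinates on which `E` projects bijectively
(`d` independent columns of a `d × t` matrix whose rows are a basis of `E`): then the values of
`b` on the other `t - d` coordinates determine `b`. Indeed, if `b, b'` agree there and both are
orthogonal to `E`, then `b - b'` (in `K^t`) is supported on the `d` coordinates and orthogonal
to `E`, hence zero, and `0 ≠ 1` in `K`. (Or: induction on `t`.) -/
def ODL_stmt : Prop := ∀ (K : Type) [Field K] (t : ℕ) (E : Submodule K (Fin t → K)),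
  Set.ncard {b : Fin t → Bool | ∀ u ∈ E, dotb b u = 0} * 2 ^ Module.finrank K E ≤ 2 ^ t

/-- KIL. `k` vectors: the number `N(k,E)` of `k`-tuples orthogonal to some nonzero vector of `E`
satisfies `N(k,E) 2^k ≤ (2^d - 1) 2^(tk)`, `d = dim E`. Induction on `k` for all `E` (write the
tuple as `Fin.cons b B`): `k = 0`: `N = 1` if `d ≥ 1` and `0` if `d = 0`. Step: with
`E_b = {u ∈ E : dotb b u = 0}`, `N(k+1,E) = ∑_b N(k,E_b)`, and `dim E_b = d` if `b` is orthogonal
to `E` (at most `2^(t-d)` of the `b`, ODL), otherwise `d - 1`. So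
`N(k+1,E) 2^k / 2^(tk) ≤ q (2^d - 1) + (2^t - q)(2^(d-1) - 1)` with `q ≤ 2^(t-d)`, which is at
most `2^(t-d) (2^d - 1) + (2^t - 2^(t-d))(2^(d-1) - 1) = 2^(t-1) (2^d - 1)`. -/
def KIL_stmt : Prop := ∀ (K : Type) [Field K] (t : ℕ) (E : Submodule K (Fin t → K)) (k : ℕ),
  Set.ncard {B : Fin k → Fin t → Bool | ∃ u ∈ E, u ≠ 0 ∧ ∀ i, dotb (B i) u = 0} * 2 ^ k ≤
    (2 ^ Module.finrank K E - 1) * 2 ^ (t * k)

/-- VTX. Adding a vertex. Let `(s, w)` (coordinates `0` and `Fin.succ`) be in the eigenspace `E'`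
of `bord H (ind b)`: `dotb b w = lam s` and `s b_j + (H w)_j = lam w_j`. The kernel of
`(s,w) ↦ s` embeds into `E = EigK K lam H`, so `dim E' ≤ dim E + 1`. If `u ∈ E` has
`dotb b u ≠ 0`: multiply the second equation by `u_j` and sum: by symmetry of `H` and
`H u = lam u` one gets `s dotb b u = 0`, so `s = 0` and `(s,w) ↦ w` embeds `E'` into `E`. -/
def VTX_stmt : Prop := ∀ (K : Type) [Field K] (lam : K) (t : ℕ) (H : Matrix (Fin t) (Fin t) ℤ)
  (b : Fin t → Bool), (∀ i j, H i j = H j i) →
  Module.finrank K (EigK K lam (bord H (ind b))) ≤ Module.finrank K (EigK K lam H) + 1 ∧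
  ((∃ u ∈ EigK K lam H, dotb b u ≠ 0) →
    Module.finrank K (EigK K lam (bord H (ind b))) ≤ Module.finrank K (EigK K lam H))

/-! ## Block 2: the points -/

/-- PBH. If `Kry H S` is not everything there is a point with an eigenvector orthogonal to `S`.
Proof: make `ℤ^t` a `ℤ[X]`-module, `X` acting as `H` (`Module.AEval' (Matrix.toLin' H)` or
`Matrix.mulVecLin`); it is finitely generated, `Kry H S` is a submodule, the quotient is
nontrivial and finitely generated, so it has a simple quotient (`IsCoatomic` for finitely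
generated modules), which is isomorphic to `ℤ[X] ⧸ P` for a maximal ideal `P`
(`isSimpleModule_iff_quot_maximal`). This gives an additive map `f : ℤ^t → KP P`, nonzero, with
`f (H y) = lamP P * f y`, vanishing on `Kry H S`. Put `u j = f (e_j)`; then
`f y = ∑ (y j) u j`, and `H u = lam u` since `H` is symmetric. -/
def PBH_stmt : Prop := ∀ (t : ℕ) (H : Matrix (Fin t) (Fin t) ℤ) (S : Set (Fin t → ℤ)),
  (∀ i j, H i j = H j i) → Kry H S ≠ ⊤ →
  ∃ (P : Pt) (u : Fin t → KP P), u ≠ 0 ∧ u ∈ EigK (KP P) (lamP P) H ∧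
    ∀ b ∈ S, ∑ j, (b j : KP P) * u j = 0

/-- PTP. At most `t` points above the prime `p` have a nonzero eigenspace. Proof: for distinct
points `P_1, ..., P_s` above `p` with nonzero `u_i ∈ EigK` choose `y_i ∈ ℤ^t` (a unit vector)
with `⟨y_i, u_i⟩ ≠ 0` in `KP P_i` and polynomials `e_i ∈ ℤ[X]` with `e_i ≡ 1 mod P_i`,
`e_i ≡ 0 mod P_j` for `j ≠ i` (Chinese remainder theorem,
`Ideal.exists_forall_sub_mem_ideal` or `Ideal.quotientInfRingEquivPiQuotient`). The vectors
`e_i(H) y_i` are linearly independent modulo `p`: `⟨e_i(H) y_i, u_j⟩ = e_i(lam_j) ⟨y_i, u_j⟩` is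
`0` for `i ≠ j` and `⟨y_i, u_i⟩` for `i = j`; if `∑ c_i e_i(H) y_i ∈ p ℤ^t`, pairing with `u_j`
gives `c_j ∈ P_j`, hence `p ∣ c_j` (an integer prime to `p` is not in `P_j`). So `s ≤ t`.
(Alternative: every such `P` contains `p` and the characteristic polynomial of `H`, so it
corresponds to an irreducible factor of the latter modulo `p`.) -/
def PTP_stmt : Prop := ∀ (t : ℕ) (H : Matrix (Fin t) (Fin t) ℤ) (p : ℕ), p.Prime →
  (∀ i j, H i j = H j i) →
  ∀ s : Finset Pt, (∀ P ∈ s, Above p P ∧ crk P H ≠ 0) → s.card ≤ t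

/-- DT1. If no point above `2` is bad, there are `t` vectors `H^l b_i`, `l < t`, with odd
determinant. Proof: apply PBH to `S = {ind (B i)} ∪ {2 e_j}`: a point `P` as in PBH has `2 u = 0`,
so `2 ∈ P` (some `u j ≠ 0` in a field) and `P` would be bad and above `2`. So `Kry H S = ⊤`; by
Cayley-Hamilton (`Matrix.aeval_self_charpoly`, monic of degree `t`) the powers `l < t` suffice
modulo the multiples of `2`, so the reductions mod `2` of the vectors `H^l b_i`, `l < t`, span
`(ℤ/2)^t`; choose a basis among them. -/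
def DT1_stmt : Prop := ∀ (t k : ℕ) (H : Matrix (Fin t) (Fin t) ℤ) (B : Fin k → Fin t → Bool),
  (∀ i j, H i j = H j i) → (∀ P : Pt, Above 2 P → ¬ Bad P H B) →
  ∃ (l : Fin t → ℕ) (c : Fin t → Fin k), (∀ a, l a < t) ∧
    Odd (Matrix.det (Matrix.of fun a j => ((H ^ l a).mulVec (ind (B (c a)))) j))

/-- DT2. The size of the determinant. The entries of `H^l b` are integers in `[0, t^l]`, so the
absolute value of the determinant is at most `t! (t^t)^t ≤ 2^(L (t² + t))` if `t ≤ 2^L`
(for `t = 0` the determinant is `1`). -/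
def DT2_stmt : Prop := ∀ (t k L : ℕ) (H : Matrix (Fin t) (Fin t) ℤ) (B : Fin k → Fin t → Bool)
  (l : Fin t → ℕ) (c : Fin t → Fin k), IsGr H → t ≤ 2 ^ L → (∀ a, l a < t) →
  (Matrix.det (Matrix.of fun a j => ((H ^ l a).mulVec (ind (B (c a)))) j)).natAbs ≤
    2 ^ (L * (t ^ 2 + t))

/-- DT3. A bad point lies above a prime divisor of the determinant: if `u` is the eigenvector,
`⟨H^l b, u⟩ = lam^l ⟨b, u⟩ = 0` for all rows, so `det * u = 0` in `KP P` (multiply by the
adjugate), hence `(det : ℤ[X]) ∈ P`; as `P` is prime and `det ≠ 0`, some prime divisor `p` of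
`det` is in `P` (the units `±1` are not). -/
def DT3_stmt : Prop := ∀ (t k : ℕ) (H : Matrix (Fin t) (Fin t) ℤ) (B : Fin k → Fin t → Bool)
  (l : Fin t → ℕ) (c : Fin t → Fin k) (P : Pt), (∀ i j, H i j = H j i) → Bad P H B →
  Matrix.det (Matrix.of fun a j => ((H ^ l a).mulVec (ind (B (c a)))) j) ≠ 0 →
  ∃ p : ℕ, p.Prime ∧
    p ∣ (Matrix.det (Matrix.of fun a j => ((H ^ l a).mulVec (ind (B (c a)))) j)).natAbs ∧
    Above p P

/-- PTS. If no point above `2` is bad, the number of bad points is at most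
`t * (L * (t^2 + t)) ≤ 2^(4L+1)`. Proof: DT1, DT2, DT3 and PTP: every bad point has
`crk P H ≠ 0` and lies above a prime factor of the determinant `D ≠ 0`; `D` has at most
`log₂ |D| ≤ L (t² + t)` prime factors (each is `≥ 2`), and each is below at most `t` of the points
(PTP). Finally `t L (t² + t) ≤ 2^L * L * 2 * 2^(2L) ≤ 2^(4L+1)` as `L ≤ 2^L`. -/
def PTS_stmt : Prop := ∀ (t k L : ℕ) (H : Matrix (Fin t) (Fin t) ℤ) (B : Fin k → Fin t → Bool),
  IsGr H → t ≤ 2 ^ L → (∀ P : Pt, Above 2 P → ¬ Bad P H B) →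
  ∀ s : Finset Pt, (∀ P ∈ s, Bad P H B) → s.card ≤ 2 ^ (4 * L + 1)

/-- EXR. If all points above `2` have `crk P H ≤ 2 L + 2`, then there are `3 L + 3` vectors such
that no point above `2` is bad. Proof: only the points above `2` with `crk P H ≠ 0` can be bad;
by PTP they form a finite set with at most `t ≤ 2^L` elements; for each of them at most
`(2^(2L+2) - 1) 2^(t(3L+3)) / 2^(3L+3) < 2^(t(3L+3)) / 2^(L+1)` of the tuples make it bad (KIL for
the field `KP P`), so that fewer than `2^(t (3L+3))` tuples are bad. -/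
def EXR_stmt : Prop := ∀ (t L : ℕ) (H : Matrix (Fin t) (Fin t) ℤ),
  (∀ i j, H i j = H j i) → t ≤ 2 ^ L → (∀ P : Pt, Above 2 P → crk P H ≤ 2 * L + 2) →
  ∃ B : Fin (3 * L + 3) → Fin t → Bool, ∀ P : Pt, Above 2 P → ¬ Bad P H B

/-- CRD. If all points above `2` have `crk P H ≤ 2 L + 2`, then at most `2^(4L+1)` points have
`crk P H > 3 L + 3`. Proof: take `B` from EXR; such a point is bad, because `3L+3` linear
conditions on a space of dimension `> 3L+3` have a nonzero solution; use PTS. -/
def CRD_stmt : Prop := ∀ (t L : ℕ) (H : Matrix (Fin t) (Fin t) ℤ),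
  IsGr H → t ≤ 2 ^ L → (∀ P : Pt, Above 2 P → crk P H ≤ 2 * L + 2) →
  ∀ s : Finset Pt, (∀ P ∈ s, 3 * L + 3 < crk P H) → s.card ≤ 2 ^ (4 * L + 1)

/-! ## Block 3: counting good graphs -/

/-- STP. For a good `H` on `Fin t`, `t ≤ 2^L`, at most `2^t / 2^(L+1)` vectors `b` make
`bord H (ind b)` not good. Assume `1 ≤ L`. Proof: if `bord H (ind b)` is not good, then for some
`P` its `crk` exceeds the bound `g = 2L+2` (`P` above `2`) or `r = 5L+3`; by VTX `crk P H` is
exactly `g` (resp. `r`) and `b` is orthogonal to the eigenspace of `H` at `P`. There are at most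
`t ≤ 2^L` such points of the first kind (PTP) and at most `2^(4L+1)` of the second kind (CRD,
as `5L+3 > 3L+3`), and for each of them at most `2^t / 2^g` (resp. `2^t / 2^r`) vectors `b`
(ODL). Sum: `2^t (2^(L-2L-2) + 2^(4L+1-5L-3)) = 2^t / 2^(L+1)`. -/
def STP_stmt : Prop := ∀ (t L : ℕ) (H : Matrix (Fin t) (Fin t) ℤ), 1 ≤ L →
  IsGr H → t ≤ 2 ^ L → Good L H →
  Set.ncard {b : Fin t → Bool | ¬ Good L (bord H (ind b))} * 2 ^ (L + 1) ≤ 2 ^ t

/-- CNT. At least half of the graphs on `m ≤ 2^L` vertices are good. Proof: for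
`N t = ncard {H : Matrix (Fin t) (Fin t) ℤ | IsGr H ∧ Good L H}` show by induction on `t ≤ 2^L`:
`2^(t.choose 2) * (2^(L+1) - t) ≤ N t * 2^(L+1)`. `t = 0`: one matrix, all `crk` are `0`. Step:
`(H, b) ↦ bord H (ind b)` is injective and preserves `IsGr`, so
`N (t+1) ≥ N t * (2^t - 2^t/2^(L+1))` by STP, and
`(1 - t/2^(L+1)) (1 - 1/2^(L+1)) ≥ 1 - (t+1)/2^(L+1)`. (The set is finite: entries in `{0,1}`.) -/
def CNT_stmt : Prop := ∀ (m L : ℕ), 1 ≤ L → m ≤ 2 ^ L →
  2 ^ (m.choose 2) ≤ 2 * Set.ncard {H : Matrix (Fin m) (Fin m) ℤ | IsGr H ∧ Good L H}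

/-- GEN. For a good `H` some `12 L + 8` vectors generate `ℤ^m`. Proof: take the first `3L+3`
vectors from EXR. By PTS the set of the bad points for them is finite with at most `2^(4L+1)`
elements, each with `crk ≤ 5L+3`. By KIL the number of `(9L+5)`-tuples which leave one of these
points bad is at most `2^(4L+1) 2^(5L+3) / 2^(9L+5) = 1/2` of all. With a good choice no point is
bad for the whole tuple (`Fin.append` and `12L+8 = (3L+3)+(9L+5)`), and `Kry = ⊤` by PBH
(note `∑ (ind b j : K) * u j = dotb b u`). -/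
def GEN_stmt : Prop := ∀ (m L : ℕ) (H : Matrix (Fin m) (Fin m) ℤ), 1 ≤ L →
  IsGr H → m ≤ 2 ^ L → Good L H →
  ∃ B : Fin (12 * L + 8) → Fin m → Bool, Kry H (Set.range fun i => ind (B i)) = ⊤

/-! ## Block 4: rigidity and moments -/

/-- RIG. If `Kry = ⊤` the moments determine `H` up to isomorphism. Proof: write
`e_a = ∑ c_(a,i,l) H^l b_i` (finite integer combination) and put
`w_a = ∑ c_(a,i,l) H'^l b'_i ∈ ℤ^m`. The inner products of the vectors `H^l b_i` and
`H'^l b'_i` agree (symmetry of `H`, `H'` and the moments), so `⟨w_a, w_b⟩ = ⟨e_a, e_b⟩`, and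
`⟨w_a, H' w_b⟩ = ⟨e_a, H e_b⟩ = H a b`. So the integer matrix with rows `w_a` is orthogonal,
every `w_a` is `± e_(σ a)` for a permutation `σ`, and `H' (σ a) (σ b) = ± H a b`, where both are
`0` or `1`. -/
def RIG_stmt : Prop := ∀ (m k : ℕ) (H H' : Matrix (Fin m) (Fin m) ℤ)
  (B B' : Fin k → Fin m → Bool), IsGr H → IsGr H' →
  Kry H (Set.range fun i => ind (B i)) = ⊤ →
  (∀ i j l, mom H (B i) (B j) l = mom H' (B' i) (B' j) l) →
  ∃ σ : Equiv.Perm (Fin m), ∀ a b, H' (σ a) (σ b) = H a b

/-- BOR. The characteristic polynomial of a bordered matrix (any integer matrix `H`, same vector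
as new row and column): expansion along the first row and column, or the Schur complement over
the field of rational functions. -/
def BOR_stmt : Prop := ∀ (m : ℕ) (H : Matrix (Fin m) (Fin m) ℤ) (v : Fin m → ℤ),
  (bord H v).charpoly = X * H.charpoly - PP H v v

/-- JAC. Two new vertices. Over the field of fractions of `ℤ[X]` let
`R = (X - H)⁻¹ = adj / charpoly`. Then (Schur complement) `charpoly (dbl H b c)` is
`charpoly H` times the determinant of `[[X - bRb, -bRc], [-cRb, X - cRc]]`, and
`charpoly (bord H b) = charpoly H * (X - bRb)`; `bRc = cRb` as `H` is symmetric. (Or use BOR twice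
and the Desnanot-Jacobi identity.) -/
def JAC_stmt : Prop := ∀ (m : ℕ) (H : Matrix (Fin m) (Fin m) ℤ) (b c : Fin m → Bool),
  (∀ i j, H i j = H j i) →
  H.charpoly * (dbl H b c).charpoly =
    (bord H (ind b)).charpoly * (bord H (ind c)).charpoly - PP H (ind b) (ind c) ^ 2

/-- ADJ. The coefficients of `PP`. With `φ = charpoly H = ∑ φ_s X^s` the matrix polynomial
`Q = ∑_k X^k ∑_(s>k) φ_s H^(s-k-1)` satisfies `(X - H) Q = φ(X) - φ(H) = φ(X)` (Cayley-Hamilton),
and `(X - H) adj(X - H) = φ(X)`; `X - H` has nonzero determinant, so `Q = adj(X - H)`. -/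
def ADJ_stmt : Prop := ∀ (m : ℕ) (H : Matrix (Fin m) (Fin m) ℤ) (v w : Fin m → ℤ) (k : ℕ),
  (PP H v w).coeff k =
    ∑ s ∈ Finset.Ico (k + 1) (m + 1), H.charpoly.coeff s * (v ⬝ᵥ (H ^ (s - k - 1)).mulVec w)

/-- MO2. From `PP = e PP'` and equal characteristic polynomials the moments agree up to the factor
`e`. Proof: for `l < m` strong induction with ADJ for `k = m - 1 - l` (the summand `s = m` is the
moment `l`, as `charpoly` is monic of degree `m`; the others have smaller exponents); for
`l ≥ m` Cayley-Hamilton: `H^l = - ∑_(s<m) φ_s H^(l-m+s)` (also if `m = 0`). -/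
def MO2_stmt : Prop := ∀ (m : ℕ) (H H' : Matrix (Fin m) (Fin m) ℤ) (v w v' w' : Fin m → ℤ)
  (e : ℤ), H.charpoly = H'.charpoly → PP H v w = C e * PP H' v' w' →
  ∀ l : ℕ, v ⬝ᵥ (H ^ l).mulVec w = e * (v' ⬝ᵥ (H' ^ l).mulVec w')

/-- MOM. The characteristic polynomials of the doubly bordered matrices determine the moments.
Proof: `dbl H b emp = bord (bord H b) 0`, so `charpoly (dbl H b emp) = X charpoly (bord H b)` and
`charpoly (dbl H emp emp) = X² charpoly H` by BOR (`PP H 0 0 = 0`); so `charpoly H`,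
`charpoly (bord H b)`, `charpoly (bord H c)`, `charpoly (dbl H b c)` agree with the primed ones
and JAC gives `PP² = PP'²`, `PP = ± PP'`. By MO2 `mom = ± mom'` for all `l` with the same sign;
as all moments are `≥ 0`, they are equal. -/
def MOM_stmt : Prop := ∀ (m : ℕ) (H H' : Matrix (Fin m) (Fin m) ℤ) (b c b' c' : Fin m → Bool),
  IsGr H → IsGr H' →
  (dbl H emp emp).charpoly = (dbl H' emp emp).charpoly →
  (dbl H b emp).charpoly = (dbl H' b' emp).charpoly →
  (dbl H c emp).charpoly = (dbl H' c' emp).charpoly →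
  (dbl H b c).charpoly = (dbl H' b' c').charpoly →
  ∀ l : ℕ, mom H b c l = mom H' b' c' l

/-- ISO. For given polynomials `F i j` there are at most `m!` matrices `H` with a generating tuple
`B` with `charpoly (dbl H (ext B i) (ext B j)) = F i j` for all `i, j`. Proof: if `H`, `H'` are two
of them, MOM (for `Fin.succ i`, `Fin.succ j` and `0`) and RIG give a permutation `σ` with
`H' (σ a) (σ b) = H a b`; so all of them are in the image of a map from `Equiv.Perm (Fin m)`. -/
def ISO_stmt : Prop := ∀ (m k : ℕ) (F : Fin (k + 1) → Fin (k + 1) → ℤ[X]),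
  Set.ncard {H : Matrix (Fin m) (Fin m) ℤ | IsGr H ∧ ∃ B : Fin k → Fin m → Bool,
    Kry H (Set.range fun i => ind (B i)) = ⊤ ∧
    ∀ i j, (dbl H (ext B i) (ext B j)).charpoly = F i j} ≤ m.factorial

/-! ## Block 5: the final counting -/

/-- DIV. A monic polynomial of degree `n` over `ℤ` has at most `2^n` monic divisors. Proof: map
to `ℂ[X]` (injective on polynomials); `F = ∏ (X - θ)` over the multiset of its `n` roots, and a
monic divisor is the product over a sub-multiset (`Multiset.powerset` has `2^n` elements), e.g.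
its roots form a sub-multiset by `Polynomial.roots.le_of_dvd`. -/
def DIV_stmt : Prop := ∀ (F : ℤ[X]), F.Monic →
  {f : ℤ[X] | f.Monic ∧ f ∣ F}.Finite ∧
    Set.ncard {f : ℤ[X] | f.Monic ∧ f ∣ F} ≤ 2 ^ F.natDegree

/-- UNI. Disjoint unions and isolated vertices. On `Fin K × Fin s ⊕ Fin (n - K s)` (or by
induction on `K`) take the block diagonal matrix; its characteristic polynomial is the product
(`Matrix.det_blockDiagonal`, `Matrix.det_fromBlocks_zero₂₁`), transport to `Fin n` by an
equivalence (`Matrix.charpoly_reindex`); a matrix which is symmetric with entries `0, 1` and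
diagonal `0` is the adjacency matrix of a graph. -/
def UNI_stmt : Prop := ∀ (K s n : ℕ) (A : Fin K → Matrix (Fin s) (Fin s) ℤ),
  (∀ a, IsGr (A a)) → K * s ≤ n → X ^ (n - K * s) * ∏ a, (A a).charpoly ∈ specs n

/-- CTF. The number of spectra. Let `k = 12L+8`, `K = (k+1)²`, `K (m+2) ≤ n`, `m ≤ 2^L`. For every
good `H` choose `B` (GEN) and let `F(H) = X^(n - K(m+2)) ∏_(i,j) charpoly (dbl H (ext B i) (ext B j))`.
It is in `specs n` (UNI with `Fin K ≃ Fin (k+1) × Fin (k+1)`; `dbl` preserves `IsGr`), it is monic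
of degree `n`, the factors are `K` of its monic divisors. So for a given value of `F` there are
at most `(2^n)^K` tuples of factors (DIV), and for a given tuple at most `m!` matrices `H` (ISO).
With CNT: `2^(m choose 2) ≤ 2 * #good ≤ 2 * #(specs n) * 2^(n K) * m!`. (`specs n` is finite.) -/
def CTF_stmt : Prop := ∀ (m L n : ℕ), 1 ≤ L → m ≤ 2 ^ L → (12 * L + 9) ^ 2 * (m + 2) ≤ n →
  2 ^ (m.choose 2) ≤ 2 * Set.ncard (specs n) * 2 ^ (n * (12 * L + 9) ^ 2) * m.factorial

/-- ASY. The asymptotics: CTF with `L = Nat.log 2 n + 1` and `m = n / (12 L + 9)^2 - 2`. For large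
`n`, `12 L + 9 ≤ 21 L`, `L ≤ 2 log n`, so `m ≥ n / (1764 (log n)²) - 3 ≥ n / (2000 (log n)²)`, and
the logarithm to base 2 of the number of spectra is at least
`m (m - 1) / 2 - 1 - n (12 L + 9)² - m log₂ m ≥ 10^(-8) n² / (log n)^4`, because
`n (log n)² = o (n² / (log n)^4)`. -/
def ASY_stmt : Prop := ∀ (σ : ℕ → ℕ),
  (∀ (m L n : ℕ), 1 ≤ L → m ≤ 2 ^ L → (12 * L + 9) ^ 2 * (m + 2) ≤ n →
    2 ^ (m.choose 2) ≤ 2 * σ n * 2 ^ (n * (12 * L + 9) ^ 2) * m.factorial) →
  ∃ c : ℝ, 0 < c ∧ ∃ n₀ : ℕ, ∀ n : ℕ, n₀ ≤ n →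
    (2 : ℝ) ^ (c * (n : ℝ) ^ 2 / (Real.log n) ^ 4) ≤ (σ n : ℝ)

end Pool.Agent.helper42.NS
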